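import Pool.Agent.H131.T1.Slide

/-!
Counting: cyclic words against polygons.
-/

set_option linter.unusedSectionVars false

namespace Pool.Agent.H131.T1

open H981
open scoped ENNReal

/-- cyclic words with given displacement -/
def Cw (n : ℕ) (p : ℕ × ℤ) (w : List St) : Prop := Rq n w ∧ (dx w = p.1 ∧ dy w = p.2)

noncomputable def gp (n : ℕ) (p : ℕ × ℤ) : ℝ≥0∞ := ∑' w : List St, ind (Cw n p w) * 1

abbrev IX := (ℕ × ℤ) × (ℕ × (List St × List St))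

def PQ (n : ℕ) (q : IX) : Prop := q.2.1 < q.1.1 ∧ (Cw n q.1 q.2.2.1 ∧ Cw n q.1 q.2.2.2)

lemma exists_slide {n : ℕ} (hn : 1 ≤ n) (q : IX) : ∃ r : ℕ × ℕ, PQ n q → r.1 < n ∧ r.2 < n ∧
      (dx q.2.2.1 ∣ (q.2.1 : ℤ) - ((pf q.2.2.1 r.1).1 - (pf q.2.2.2 r.2).1)) ∧
      IsLoop (2 * (n + 1)) (glue n (q.2.2.2.drop r.2 ++ q.2.2.2.take r.2)
        (q.2.2.1.drop r.1 ++ q.2.2.1.take r.1)) := by
  by_cases h : PQ n q
  · obtain ⟨h1, ⟨h2, h3, h4⟩, ⟨h5, h6, h7⟩⟩ := h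
    obtain ⟨r₁, r₂, a1, a2, a3, a4⟩ := slide hn h2.1 h5.1 (pSaw_of_rot h2) (pSaw_of_rot h5)
      (dx_pos_of_rot hn h2) (by rw [h6, h3]) (by rw [h7, h4]) (s := (q.2.1 : ℤ)) (by positivity)
    exact ⟨(r₁, r₂), fun _ => ⟨a1, a2, a3, a4⟩⟩
  · exact ⟨(0, 0), fun h' => absurd h' h⟩

theorem sum_gp_le {n : ℕ} (hn : 1 ≤ n) : ∑' p : ℕ × ℤ, (p.1 : ℝ≥0∞) * (gp n p * gp n p) ≤
    ((n * n : ℕ) : ℝ≥0∞) * lp (2 * (n + 1)) := by
  have h1 : ∀ p : ℕ × ℤ, (p.1 : ℝ≥0∞) * (gp n p * gp n p) =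
      ∑' q : ℕ × (List St × List St), ind (PQ n (p, q)) * 1 := by
    intro p
    unfold gp
    rw [tsum_mul_tsum' (fun w => ind (Cw n p w) * 1) (fun w => ind (Cw n p w) * 1)]
    have h2 : ∀ q : List St × List St, ind (Cw n p q.1) * 1 * (ind (Cw n p q.2) * 1) =
        ind (Cw n p q.1 ∧ Cw n p q.2) * 1 := by
      intro q; rw [ind_and]; ring
    simp_rw [h2]
    rw [nat_mul_tsum]
    rfl
  simp_rw [h1]
  rw [← ENNReal.tsum_prod (f := fun p q => ind (PQ n (p, q)) * 1)]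
  have h3 : ((n * n : ℕ) : ℝ≥0∞) * lp (2 * (n + 1)) =
      ∑' r : ℕ × (ℕ × (ZMod (2 * (n + 1)) → ℤ × ℤ)),
        ind (r.1 < n ∧ (r.2.1 < n ∧ IsLoop (2 * (n + 1)) r.2.2)) * 1 := by
    rw [← nat_mul_tsum n (fun r : ℕ × (ZMod (2 * (n + 1)) → ℤ × ℤ) =>
      r.1 < n ∧ IsLoop (2 * (n + 1)) r.2), ← nat_mul_tsum n (fun r : ZMod (2 * (n + 1)) → ℤ × ℤ =>
      IsLoop (2 * (n + 1)) r)]
    unfold H981.lp
    simp only [mul_one]
    push_cast
    ring
  rw [h3]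
  choose r hr using fun q : IX => exists_slide hn q
  refine tsum_inj _ _ _ _ (fun q : IX => ((r q).1, ((r q).2,
    glue n (q.2.2.2.drop (r q).2 ++ q.2.2.2.take (r q).2)
        (q.2.2.1.drop (r q).1 ++ q.2.2.1.take (r q).1)))) ?_ ?_ ?_
  · intro q q' hq hq' he
    have k1 := hr q hq
    have k2 := hr q' hq'
    obtain ⟨⟨a, h⟩, ⟨s, ⟨w₁, w₂⟩⟩⟩ := q
    obtain ⟨⟨a', h'⟩, ⟨s', ⟨w₁', w₂'⟩⟩⟩ := q'
    simp only [Prod.mk.injEq] at he
    obtain ⟨e1, e2, e3⟩ := he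
    obtain ⟨b1, ⟨b2, b3, b4⟩, ⟨b5, b6, b7⟩⟩ := hq
    obtain ⟨c1, ⟨c2, c3, c4⟩, ⟨c5, c6, c7⟩⟩ := hq'
    simp only at b1 b2 b3 b4 b5 b6 b7 c1 c2 c3 c4 c5 c6 c7 k1 k2
    have l1 := b2.1
    have l2 := b5.1
    have l3 := c2.1
    have l4 := c5.1
    have lr : ∀ (w : List St) (i : ℕ), w.length = n → (w.drop i ++ w.take i).length = n := by
      intro w i hw
      simp only [List.length_append, List.length_drop, List.length_take]
      omega
    obtain ⟨g1, g2⟩ := glue_inj (lr _ _ l2) (lr _ _ l1) (lr _ _ l4) (lr _ _ l3) e3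
    rw [e2] at g1
    rw [e1] at g2
    have w1e : w₁ = w₁' := rot_back (l1.trans l3.symm) g2
    have w2e : w₂ = w₂' := rot_back (l2.trans l4.symm) g1
    subst w1e
    subst w2e
    have ea : a = a' := by
      rw [b3] at c3; exact_mod_cast c3
    have eh : h = h' := by rw [← b4, ← c4]
    subst ea
    subst eh
    have es : s = s' := by
      have d1 := k1.2.2.1
      have d2 := k2.2.2.1
      rw [e1, e2] at d1
      have d3 := dvd_sub d1 d2
      rw [sub_sub_sub_cancel_right, b3] at d3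
      have d4 : (s : ℤ) - s' = 0 := by
        apply Int.eq_zero_of_abs_lt_dvd d3
        rw [abs_lt]
        constructor <;> push_cast <;> omega
      omega
    subst es
    rfl
  · intro q hq
    obtain ⟨k1, k2, k3, k4⟩ := hr q hq
    exact ⟨k1, k2, k4⟩
  · intro q _
    exact le_rfl

lemma saw_of_rq {n : ℕ} {w : List St} (h : Rq n w) : Saw w := by
  have := pSaw_of_rot h 1
  rwa [Wp_succ, Wp_zero, List.append_nil] at this

lemma gq_ne_top (n : ℕ) : gq n ≠ ⊤ := by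
  refine ne_top_of_le_ne_top (cc_ne_top n) ?_
  unfold gq cc
  apply ENNReal.tsum_le_tsum
  intro w
  exact ind_mono fun h => ⟨saw_of_rq h, h.1⟩

lemma gp_le_gq (n : ℕ) (p : ℕ × ℤ) : gp n p ≤ gq n := by
  unfold gp gq
  apply ENNReal.tsum_le_tsum
  intro w
  rw [mul_one]
  exact ind_mono fun h => h.1

/-- the possible displacements -/
noncomputable def Fd (n : ℕ) : Finset (ℕ × ℤ) := Finset.Icc 1 n ×ˢ Finset.Icc (-(n : ℤ)) n

lemma gq_le_sum {n : ℕ} (hn : 1 ≤ n) : gq n ≤ ∑ p ∈ Fd n, gp n p := by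
  classical
  unfold gp gq
  rw [← Summable.tsum_finsetSum (fun _ _ => ENNReal.summable)]
  apply ENNReal.tsum_le_tsum
  intro w
  by_cases hw : Rq n w
  · have h2 := dx_pos_of_rot hn hw
    have h3 := dx_le_length w
    have h4 := abs_dy_le w
    rw [hw.1] at h3 h4
    rw [abs_le] at h4
    have hmem : ((dx w).toNat, dy w) ∈ Fd n := by
      unfold Fd
      rw [Finset.mem_product, Finset.mem_Icc, Finset.mem_Icc]
      simp only
      omega
    calc ind (Rq n w) = ind (Cw n ((dx w).toNat, dy w) w) * 1 := by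
          rw [mul_one]
          have : Cw n ((dx w).toNat, dy w) w := ⟨hw, by simp only; omega, rfl⟩
          rw [ind_of hw, ind_of this]
      _ ≤ _ := Finset.single_le_sum (f := fun p : ℕ × ℤ => ind (Cw n p w) * 1)
          (fun _ _ => zero_le) hmem
  · rw [ind_not hw]; exact zero_le

/-- **cyclic words and polygons** -/
theorem gq_sq_le {n : ℕ} (hn : 1 ≤ n) : (gq n).toReal ^ 2 ≤
    8 * ((n : ℝ) + 1) ^ 4 * (1 + Real.log n) * PP (n + 1) := by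
  have hn1 : (1 : ℝ) ≤ n := by exact_mod_cast hn
  have hgt : ∀ p, gp n p ≠ ⊤ := fun p => ne_top_of_le_ne_top (gq_ne_top n) (gp_le_gq n p)
  set g : ℕ × ℤ → ℝ := fun p => (gp n p).toReal with hg
  have hlog : 0 ≤ Real.log n := Real.log_nonneg hn1
  have h1 : (gq n).toReal ≤ ∑ p ∈ Fd n, g p := by
    have h := ENNReal.toReal_mono (ENNReal.sum_ne_top.mpr fun p _ => hgt p) (gq_le_sum hn)
    rwa [ENNReal.toReal_sum fun p _ => hgt p] at h
  have h2 : ∑ p ∈ Fd n, (p.1 : ℝ) * g p ^ 2 ≤ (n : ℝ) ^ 2 * (lp (2 * (n + 1))).toReal := by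
    have h := (ENNReal.sum_le_tsum (f := fun p : ℕ × ℤ => (p.1 : ℝ≥0∞) * (gp n p * gp n p))
      (Fd n)).trans (sum_gp_le hn)
    have h' := ENNReal.toReal_mono (ENNReal.mul_ne_top (ENNReal.natCast_ne_top _) (lp_ne_top n)) h
    rw [ENNReal.toReal_sum (fun p _ => ENNReal.mul_ne_top (ENNReal.natCast_ne_top _)
      (ENNReal.mul_ne_top (hgt p) (hgt p))), ENNReal.toReal_mul, ENNReal.toReal_natCast] at h'
    refine le_trans (le_of_eq ?_) (h'.trans (le_of_eq ?_))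
    · apply Finset.sum_congr rfl
      intro p _
      rw [ENNReal.toReal_mul, ENNReal.toReal_mul, ENNReal.toReal_natCast]
      simp only [hg]
      ring
    · push_cast; ring
  have h3 : ∑ p ∈ Fd n, ((p.1 : ℝ))⁻¹ ≤ (2 * n + 1) * (1 + Real.log n) := by
    unfold Fd
    rw [Finset.sum_product]
    simp only [Finset.sum_const, Int.card_Icc, nsmul_eq_mul]
    rw [← Finset.mul_sum]
    have e1 : (((n : ℤ) + 1 - -(n : ℤ)).toNat : ℝ) = 2 * n + 1 := by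
      have : ((n : ℤ) + 1 - -(n : ℤ)).toNat = 2 * n + 1 := by omega
      rw [this]; push_cast; ring
    rw [e1]
    gcongr
    have h4 := harmonic_le_one_add_log n
    refine le_trans (le_of_eq ?_) h4
    rw [harmonic_eq_sum_Icc]
    push_cast
    rfl
  have h4 : (∑ p ∈ Fd n, g p) ^ 2 ≤
      (∑ p ∈ Fd n, (p.1 : ℝ) * g p ^ 2) * ∑ p ∈ Fd n, ((p.1 : ℝ))⁻¹ := by
    apply Finset.sum_sq_le_sum_mul_sum_of_sq_le_mul
    · intro p _; positivity
    · intro p _; positivity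
    · intro p hp
      apply le_of_eq
      unfold Fd at hp
      rw [Finset.mem_product, Finset.mem_Icc] at hp
      have : (p.1 : ℝ) ≠ 0 := by
        have := hp.1.1
        positivity
      field_simp
  have hL : (lp (2 * (n + 1))).toReal = 4 * ((n : ℝ) + 1) * PP (n + 1) := by
    rw [PP_eq]; field_simp
  have hP0 : 0 ≤ PP (n + 1) := by unfold PP; positivity
  have hG0 : 0 ≤ (gq n).toReal := ENNReal.toReal_nonneg
  calc (gq n).toReal ^ 2 ≤ (∑ p ∈ Fd n, g p) ^ 2 := by gcongr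
    _ ≤ (∑ p ∈ Fd n, (p.1 : ℝ) * g p ^ 2) * ∑ p ∈ Fd n, ((p.1 : ℝ))⁻¹ := h4
    _ ≤ ((n : ℝ) ^ 2 * (lp (2 * (n + 1))).toReal) * ((2 * n + 1) * (1 + Real.log n)) := by
        gcongr
    _ = (4 * ((n : ℝ) ^ 2 * (n + 1) * (2 * n + 1))) * (1 + Real.log n) * PP (n + 1) := by
        rw [hL]; ring
    _ ≤ _ := by
        have e1 : (n : ℝ) ^ 2 ≤ ((n : ℝ) + 1) ^ 2 := by gcongr; linarith
        have e2 : (2 * (n : ℝ) + 1) ≤ 2 * ((n : ℝ) + 1) := by linarith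
        have e3 : 4 * ((n : ℝ) ^ 2 * (n + 1) * (2 * n + 1)) ≤ 8 * ((n : ℝ) + 1) ^ 4 := by
          calc 4 * ((n : ℝ) ^ 2 * (n + 1) * (2 * n + 1))
              ≤ 4 * (((n : ℝ) + 1) ^ 2 * (n + 1) * (2 * ((n : ℝ) + 1))) := by gcongr
            _ = _ := by ring
        exact mul_le_mul_of_nonneg_right (mul_le_mul_of_nonneg_right e3 (by linarith)) hP0

end Pool.Agent.H131.T1
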