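import Pool.Graph.R_seed8.TH508.LT.Fin2

/-!
Evaluation of power series with coefficients in `ℝ≥0∞`, and the untruncated bound for
half-plane walks at a subcritical point.
-/

set_option linter.unusedSectionVars false

namespace Pool.Agent.H131.T1

open H982 hiding PU
open scoped ENNReal
open PowerSeries
open Pool.Agent.W387.S Pool.Agent.TH508.LT

/-- evaluation -/
noncomputable def ev (x : ℝ≥0∞) (f : PS) : ℝ≥0∞ := ∑' n, coeff n f * x ^ n

lemma ev_mono {x : ℝ≥0∞} {f g : PS} (h : f ≤ g) : ev x f ≤ ev x g :=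
  ENNReal.tsum_le_tsum fun n => mul_le_mul' (h n) le_rfl

lemma ev_add (x : ℝ≥0∞) (f g : PS) : ev x (f + g) = ev x f + ev x g := by
  unfold ev
  rw [← ENNReal.tsum_add]
  congr 1; ext n
  rw [map_add, add_mul]

lemma ev_cst_mul (x c : ℝ≥0∞) (f : PS) : ev x (cst c * f) = c * ev x f := by
  unfold ev
  rw [← ENNReal.tsum_mul_left]
  congr 1; ext n
  rw [coeff_cst_mul, mul_assoc]

lemma ev_one (x : ℝ≥0∞) : ev x 1 = 1 := by
  unfold ev
  rw [tsum_eq_single 0]
  · simp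
  · intro n hn
    rw [PowerSeries.coeff_one, if_neg hn, zero_mul]

lemma ev_mul (x : ℝ≥0∞) (f g : PS) : ev x (f * g) = ev x f * ev x g := by
  unfold ev
  rw [tsum_mul_tsum']
  have h := (Finset.HasAntidiagonal.sigmaAntidiagonalEquivProd (A := ℕ)).symm.tsum_eq
    (fun y => coeff y.2.1.1 f * x ^ y.2.1.1 * (coeff y.2.1.2 g * x ^ y.2.1.2))
  have h' : ∑' p : ℕ × ℕ, coeff p.1 f * x ^ p.1 * (coeff p.2 g * x ^ p.2) =
      ∑' y : (Σ n : ℕ, Finset.HasAntidiagonal.antidiagonal n),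
        coeff y.2.1.1 f * x ^ y.2.1.1 * (coeff y.2.1.2 g * x ^ y.2.1.2) := by
    rw [← h]
    rfl
  rw [h', ENNReal.tsum_sigma']
  congr 1; ext n
  rw [PowerSeries.coeff_mul, Finset.sum_mul]
  rw [tsum_fintype, Finset.sum_coe_sort (Finset.HasAntidiagonal.antidiagonal n)
    (fun p => coeff p.1 f * x ^ p.1 * (coeff p.2 g * x ^ p.2))]
  apply Finset.sum_congr rfl
  intro p hp
  rw [Finset.HasAntidiagonal.mem_antidiagonal] at hp
  rw [← hp, pow_add]
  ring

lemma ev_pow (x : ℝ≥0∞) (f : PS) (k : ℕ) : ev x (f ^ k) = ev x f ^ k := by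
  induction k with
  | zero => simp [ev_one]
  | succ k ih => rw [pow_succ, ev_mul, ih, pow_succ]

lemma ev_fs {ι : Type*} (x : ℝ≥0∞) (F : ι → PS) : ev x (fs F) = ∑' i, ev x (F i) := by
  unfold ev
  rw [ENNReal.tsum_comm]
  congr 1; ext n
  rw [coeff_fs, ENNReal.tsum_mul_right]

lemma ev_prod {ι : Type*} (x : ℝ≥0∞) (s : Finset ι) (F : ι → PS) :
    ev x (∏ i ∈ s, F i) = ∏ i ∈ s, ev x (F i) := by
  classical
  induction s using Finset.induction_on with
  | empty => simp [ev_one]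
  | insert a s ha ih => rw [Finset.prod_insert ha, Finset.prod_insert ha, ev_mul, ih]


variable [L : H982.Lat]

/-- bridges of width at least `r` -/
noncomputable def Tw (r : ℕ) : PS := fs (fun w => ii (IsB w ∧ r ≤ wd w) * xl w)

/-- full exponential -/
noncomputable def eI (A : PS) : PS := fs (fun j : ℕ => cst ((j.factorial : ℝ≥0∞)⁻¹) * A ^ j)

lemma eb_le_eI (k : ℕ) (A : PS) : eb k A ≤ eI A := by
  intro n
  unfold eb eI
  rw [map_sum, coeff_fs]
  exact ENNReal.sum_le_tsum _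

lemma eI_mono {A B : PS} (h : A ≤ B) : eI A ≤ eI B := by
  unfold eI
  apply fs_mono
  intro j
  gcongr

lemma ev_eI_le {x : ℝ≥0∞} {A : PS} {c : ℝ} (hc : 0 ≤ c) (h : ev x A ≤ ENNReal.ofReal c) :
    ev x (eI A) ≤ ENNReal.ofReal (Real.exp c) := by
  unfold eI
  rw [ev_fs]
  simp_rw [ev_cst_mul, ev_pow]
  refine ENNReal.tsum_le_of_sum_range_le fun k => ?_
  rcases k with _ | k
  · simp
  · refine (Finset.sum_le_sum fun j _ => ?_).trans (sum_pow_le_exp hc k)
    gcongr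

lemma Rr_le_prod (r k : ℕ) : Rr r k [] ≤
    ∏ l ∈ Finset.range k, (1 + fs (fun β => ii (IsBr (r + l) β) * xl β)) := by
  induction k with
  | zero => simp [Rr]
  | succ k ih =>
    rw [Finset.prod_range_succ, mul_add, mul_one]
    change Rr r k [] + _ ≤ _
    refine add_le_add ih ?_
    refine le_trans ?_ (mul_le_mul' ih le_rfl)
    rw [mul_comm, fs_mul]
    apply fs_mono
    intro β
    rw [ii_and]
    calc ii (IsBr (r + k) β) * ii (NCg [] β) * (xl β * Rr r k β)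
        ≤ ii (IsBr (r + k) β) * 1 * (xl β * Rr r k []) := by
          gcongr
          · exact ii_le_one _
          · exact Rr_le_nil r k β
      _ = _ := by ring

lemma Rr_le_eI (r k : ℕ) : Rr r k [] ≤ eI (Tw r) := by
  refine (Rr_le_prod r k).trans ((prod_le_eb _ k).trans ((eb_le_eI k _).trans (eI_mono ?_)))
  have h := comb_sum r k (fun _ => True) xl
  refine le_trans ?_ (h.trans ?_)
  · apply Finset.sum_le_sum
    intro l _
    apply fs_mono
    intro β
    exact mul_le_mul' (ii_mono fun hb => ⟨hb, trivial⟩) le_rfl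
  · unfold Tw
    apply fs_mono
    intro β
    exact mul_le_mul' (ii_mono fun hb => ⟨hb.1.1, hb.1.2.1⟩) le_rfl

lemma NmT_all {c : ℝ≥0∞} {f : PS} (h : ∀ N, NmT N c f) : Nm c f := fun n => h n n le_rfl

/-- the untruncated bound at the scale `2 ^ i` -/
lemma scale_all (i : ℕ) : Nm (ENNReal.ofReal (Real.exp (600000000 * ((i : ℝ) + 1))))
    (Rr (2 ^ i) (2 ^ i) []) := by
  apply NmT_all
  intro N
  have hp : 1 ≤ 2 ^ i := Nat.one_le_two_pow
  have hlog : Nat.log 2 (2 * 2 ^ i) = i + 1 := by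
    rw [show 2 * 2 ^ i = 2 ^ (i + 1) by ring]
    exact Nat.log_pow (by norm_num) _
  have hE : LeT N (Ec (2 ^ i) (2 * 2 ^ i)) (cst (ENNReal.ofReal (34 + 16 * i)) *
      Us (16 * 2 ^ i)) := by
    intro n _
    rw [coeff_cst_mul]
    refine (coeff_Ec_le n (2 ^ i) (2 * 2 ^ i) hp (by omega)).trans ?_
    rw [hlog, show 8 * (2 * 2 ^ i) = 16 * 2 ^ i by ring]
    gcongr
    rw [← ENNReal.ofReal_natCast]
    apply ENNReal.ofReal_le_ofReal
    push_cast
    linarith
  have hc : (0 : ℝ) ≤ 34 + 16 * i := by positivity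
  have hi0 : (0 : ℝ) ≤ i := by positivity
  have e6 : (385 : ℝ) ≤ Real.exp 6 := by
    have h3 : (2.7:ℝ) ≤ Real.exp 1 := by
      have := Real.exp_one_gt_d9; linarith
    calc (385:ℝ) ≤ 2.7 ^ 6 := by norm_num
      _ ≤ (Real.exp 1) ^ 6 := by gcongr
      _ = Real.exp 6 := by rw [← Real.exp_nat_mul]; norm_num
  have e2 : ∀ k : ℕ, (2 : ℝ) ^ k ≤ Real.exp k := by
    intro k
    have h3 : (2:ℝ) ≤ Real.exp 1 := by
      have := Real.exp_one_gt_d9; linarith
    calc (2:ℝ) ^ k ≤ (Real.exp 1) ^ k := by gcongr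
      _ = Real.exp k := by rw [← Real.exp_nat_mul]; norm_num
  rcases Nat.lt_or_ge i 3 with h3 | h3
  · have h1 := scale_bound_r (r := 2 ^ i) hp hc hE
    refine (NmT.mono h1 (Rr_le_Rc _ _ _ (Or.inl rfl))).weaken ?_
    apply ENNReal.ofReal_le_ofReal
    have hi3 : (i : ℝ) ≤ 2 := by exact_mod_cast (by omega : i ≤ 2)
    have h4 : (2 * ((2 ^ i : ℕ) : ℝ) + 1) * 5 ≤ Real.exp 6 := by
      refine le_trans ?_ e6
      have : (2 : ℝ) ^ i ≤ 2 ^ 2 := pow_le_pow_right₀ (by norm_num) (by omega)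
      push_cast
      linarith
    calc (2 * ((2 ^ i : ℕ) : ℝ) + 1) * 5 * Real.exp (1024 * (34 + 16 * i) ^ 2)
        ≤ Real.exp 6 * Real.exp (1024 * (34 + 16 * i) ^ 2) := by gcongr
      _ = Real.exp (6 + 1024 * (34 + 16 * i) ^ 2) := by rw [Real.exp_add]
      _ ≤ _ := by
        apply Real.exp_le_exp.mpr
        nlinarith
  · obtain ⟨j, rfl⟩ : ∃ j, i = j + 3 := ⟨i - 3, by omega⟩
    have hj : 2 ^ (j + 3) = 8 * 2 ^ j := by rw [pow_add]; ring
    have hpj : 1 ≤ 2 ^ j := Nat.one_le_two_pow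
    have hE' := hE
    rw [hj, show 2 * (8 * 2 ^ j) = 16 * 2 ^ j by ring,
      show 16 * (8 * 2 ^ j) = 128 * 2 ^ j by ring] at hE'
    have h1 := scale_bound_d (q := 2 ^ j) hpj hc hE'
    rw [hj]
    refine (NmT.mono h1 (Rr_le_Rd _ _ _ (Or.inl rfl))).weaken ?_
    apply ENNReal.ofReal_le_ofReal
    have h4 : (16 * ((2 ^ j : ℕ) : ℝ) + 1) ≤ Real.exp (j + 5 : ℕ) := by
      refine le_trans ?_ (e2 (j + 5))
      have : (1 : ℝ) ≤ 2 ^ j := one_le_pow₀ (by norm_num)
      push_cast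
      rw [pow_add]
      linarith
    calc (16 * ((2 ^ j : ℕ) : ℝ) + 1) * 385 * Real.exp (15000000 * (34 + 16 * ((j + 3 : ℕ) : ℝ)))
        ≤ Real.exp (j + 5 : ℕ) * Real.exp 6 *
            Real.exp (15000000 * (34 + 16 * ((j + 3 : ℕ) : ℝ))) := by gcongr
      _ = Real.exp ((j + 5 : ℕ) + 6 + 15000000 * (34 + 16 * ((j + 3 : ℕ) : ℝ))) := by
          rw [Real.exp_add, Real.exp_add]
      _ ≤ _ := by
        apply Real.exp_le_exp.mpr
        push_cast
        have : (0 : ℝ) ≤ j := by positivity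
        linarith

lemma ev_of_Nm {x : ℝ≥0∞} (hx : ev x Bs ≠ ⊤) {c : ℝ≥0∞} {f : PS} (h : Nm c f) :
    ev x f ≤ c := by
  have h1 := ev_mono (x := x) h
  rw [ev_mul, ev_cst_mul] at h1
  have h0 : ev x Bs ≠ 0 := by
    have h2 := ev_mono (x := x) one_le_Bs
    rw [ev_one] at h2
    intro h3
    rw [h3] at h2
    exact absurd h2 (by simp)
  exact (ENNReal.mul_le_mul_iff_left h0 hx).mp h1

/-- **half-plane walks at a subcritical point** -/
theorem hh_ev_le {x : ℝ≥0∞} (hx : ev x Bs ≠ ⊤) (m : ℕ) {w : ℝ} (hw : 0 ≤ w)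
    (h : ev x (Tw (2 ^ m)) ≤ ENNReal.ofReal w) :
    ∑' l, hh l * x ^ l ≤ ENNReal.ofReal (1 + Real.exp (w + 600000000 * (m : ℝ) ^ 2)) := by
  have h1 : ∀ l, hh l * x ^ l ≤ coeff l (1 : PS) * x ^ l +
      coeff l (eI (Tw (2 ^ m)) * Rr 1 (2 ^ m - 1) []) * x ^ l := by
    intro l
    rw [← add_mul]
    gcongr
    rcases Nat.eq_zero_or_pos l with rfl | hl
    · refine hh_zero_le.trans ?_
      rw [PowerSeries.coeff_one, if_pos rfl]
      exact le_self_add
    · refine le_trans ?_ (le_add_self)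
      refine (hh_le_coeff (by omega)).trans ?_
      refine (Rr_mono 1 (by omega : l ≤ 2 ^ m - 1 + l) [] l).trans ?_
      refine (Rr_split 1 (2 ^ m - 1) l [] l).trans ?_
      have e : 1 + (2 ^ m - 1) = 2 ^ m := by
        have : 1 ≤ 2 ^ m := Nat.one_le_two_pow
        omega
      rw [e]
      exact mul_le_mul' (Rr_le_eI (2 ^ m) l) le_rfl l
  refine (ENNReal.tsum_le_tsum h1).trans ?_
  rw [ENNReal.tsum_add]
  change ev x 1 + ev x (eI (Tw (2 ^ m)) * Rr 1 (2 ^ m - 1) []) ≤ _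
  rw [ev_one, ev_mul]
  have h2 : ev x (Rr 1 (2 ^ m - 1) []) ≤ ENNReal.ofReal (Real.exp (600000000 * (m : ℝ) ^ 2)) := by
    refine (ev_mono (Rr_prod m)).trans ?_
    rw [ev_prod]
    refine (Finset.prod_le_prod' fun i _ => ev_of_Nm hx (scale_all i)).trans ?_
    rw [← ENNReal.ofReal_prod_of_nonneg (fun i _ => by positivity)]
    apply ENNReal.ofReal_le_ofReal
    rw [← Real.exp_sum]
    apply Real.exp_le_exp.mpr
    rw [← Finset.mul_sum]
    gcongr
    calc ∑ i ∈ Finset.range m, ((i : ℝ) + 1) ≤ ∑ i ∈ Finset.range m, (m : ℝ) := by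
          apply Finset.sum_le_sum
          intro i hi
          rw [Finset.mem_range] at hi
          exact_mod_cast hi
      _ = (m : ℝ) ^ 2 := by rw [Finset.sum_const, Finset.card_range, nsmul_eq_mul]; ring
  calc 1 + ev x (eI (Tw (2 ^ m))) * ev x (Rr 1 (2 ^ m - 1) [])
      ≤ 1 + ENNReal.ofReal (Real.exp w) * ENNReal.ofReal (Real.exp (600000000 * (m : ℝ) ^ 2)) := by
        gcongr
        exact ev_eI_le hw h
    _ = _ := by
        rw [← ENNReal.ofReal_mul (by positivity), ← Real.exp_add, ENNReal.ofReal_add (by norm_num)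
          (by positivity), ENNReal.ofReal_one]

end Pool.Agent.H131.T1
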