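import Pool.Agent.H131.T1.Cnt

/-!
Block sums of the numbers of polygons.
-/

set_option linter.unusedSectionVars false

namespace Pool.Agent.H131.T1

open H981
open scoped ENNReal

/-- normalised number of polygons -/
noncomputable def qn (n : ℕ) : ℝ := PP n / mu ^ (2 * n)

/-- normalised number of cyclic words -/
noncomputable def vn (n : ℕ) : ℝ := (gq n).toReal / (n * mu ^ n)

lemma PP_nonneg (n : ℕ) : 0 ≤ PP n := by unfold PP; positivity

lemma qn_nonneg (n : ℕ) : 0 ≤ qn n := by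
  have := mu_pos
  have := PP_nonneg n
  unfold qn; positivity

lemma vn_nonneg (n : ℕ) : 0 ≤ vn n := by
  have := mu_pos
  have : 0 ≤ (gq n).toReal := ENNReal.toReal_nonneg
  unfold vn; positivity

lemma vn_sq_le {n : ℕ} (hn : 1 ≤ n) : vn n ^ 2 ≤
    128 * mu ^ 2 * (n : ℝ) ^ 2 * (1 + Real.log n) * qn (n + 1) := by
  have hmu := mu_pos
  have h := gq_sq_le hn
  have hn1 : (1 : ℝ) ≤ n := by exact_mod_cast hn
  have hn0 : (0 : ℝ) < n := by linarith
  have hlog : 0 ≤ Real.log n := Real.log_nonneg hn1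
  have hP := PP_nonneg (n + 1)
  unfold vn qn
  rw [div_pow, mul_pow, div_le_iff₀ (by positivity)]
  have e1 : ((n : ℝ) + 1) ^ 4 ≤ 16 * (n : ℝ) ^ 4 := by
    calc ((n : ℝ) + 1) ^ 4 ≤ (2 * (n : ℝ)) ^ 4 := by gcongr; linarith
      _ = _ := by ring
  calc (gq n).toReal ^ 2 ≤ 8 * ((n : ℝ) + 1) ^ 4 * (1 + Real.log n) * PP (n + 1) := h
    _ ≤ 8 * (16 * (n : ℝ) ^ 4) * (1 + Real.log n) * PP (n + 1) := by gcongr
    _ = _ := by
      have e2 : mu ^ (2 * (n + 1)) = mu ^ 2 * (mu ^ n) ^ 2 := by ring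
      rw [e2]
      field_simp
      ring

/-- the window theorem in real form -/
theorem window_vn {ε : ℝ} (hε : 0 < ε) : ∃ K : ℝ, 0 ≤ K ∧ ∀ N : ℕ, 2 ≤ N → ∃ T M : ℕ, N ≤ T ∧
    (M : ℝ) ≤ Real.exp (K * Real.log N ^ 2) ∧
    (T : ℝ) ^ (-ε) / 2 ≤ ∑ n ∈ Finset.Ioc T M, vn n := by
  obtain ⟨K, hK, h⟩ := window_gq hε
  have hmu := mu_pos
  refine ⟨K, hK, fun N hN => ?_⟩
  obtain ⟨T, M, h1, h2, h3⟩ := h N hN
  refine ⟨T, M, h1, h2, ?_⟩
  have hfin : ∀ n ∈ Finset.Ioc T M, gq n * ENNReal.ofReal ((n * mu ^ n)⁻¹) ≠ ⊤ :=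
    fun n _ => ENNReal.mul_ne_top (gq_ne_top n) ENNReal.ofReal_ne_top
  have h4 := ENNReal.toReal_mono (ENNReal.sum_ne_top.mpr hfin) h3
  rw [ENNReal.toReal_ofReal (by positivity), ENNReal.toReal_sum hfin] at h4
  refine h4.trans (le_of_eq ?_)
  apply Finset.sum_congr rfl
  intro n _
  rw [ENNReal.toReal_mul, ENNReal.toReal_ofReal (by positivity)]
  unfold vn
  rw [div_eq_mul_inv]

/-- dyadic decomposition -/
lemma sum_dyadic (f : ℕ → ℝ) (T J : ℕ) :
    ∑ j ∈ Finset.range J, ∑ n ∈ Finset.Ioc (2 ^ j * T) (2 ^ (j + 1) * T), f n =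
      ∑ n ∈ Finset.Ioc T (2 ^ J * T), f n := by
  induction J with
  | zero => simp
  | succ J ih =>
    rw [Finset.sum_range_succ, ih]
    apply Finset.sum_Ioc_consecutive
    · have : 1 ≤ 2 ^ J := Nat.one_le_two_pow
      nlinarith
    · have : 2 ^ J ≤ 2 ^ (J + 1) := Nat.pow_le_pow_right (by norm_num) (by omega)
      nlinarith

/-- one block -/
lemma block_le {ε : ℝ} (hε : 0 < ε) {m : ℕ} (hm : 1 ≤ m)
    (h : ∑ n ∈ Finset.Ico (m + 2) (2 * (m + 2)), qn n ≤ ((m + 2 : ℕ) : ℝ) ^ (-(3 + ε))) :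
    ∑ n ∈ Finset.Ioc m (2 * m), vn n ≤
      Real.sqrt (512 * mu ^ 2 * (2 + 2 / ε)) * (m : ℝ) ^ (-(ε / 4)) := by
  have hmu := mu_pos
  have hm1 : (1 : ℝ) ≤ m := by exact_mod_cast hm
  have hm0 : (0 : ℝ) < m := by linarith
  have hlog : 0 ≤ Real.log m := Real.log_nonneg hm1
  -- Cauchy-Schwarz
  have h1 : (∑ n ∈ Finset.Ioc m (2 * m), vn n) ^ 2 ≤
      (m : ℝ) * ∑ n ∈ Finset.Ioc m (2 * m), vn n ^ 2 := by
    have := sq_sum_le_card_mul_sum_sq (s := Finset.Ioc m (2 * m)) (f := vn)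
    rw [Nat.card_Ioc] at this
    have e : 2 * m - m = m := by omega
    rw [e] at this
    exact this
  have h2 : ∑ n ∈ Finset.Ioc m (2 * m), vn n ^ 2 ≤
      512 * mu ^ 2 * (m : ℝ) ^ 2 * (2 + Real.log m) * (m : ℝ) ^ (-(3 + ε)) := by
    have h3 : ∑ n ∈ Finset.Ioc m (2 * m), vn n ^ 2 ≤
        ∑ n ∈ Finset.Ioc m (2 * m), 512 * mu ^ 2 * (m : ℝ) ^ 2 * (2 + Real.log m) *
          qn (n + 1) := by
      apply Finset.sum_le_sum
      intro n hn
      rw [Finset.mem_Ioc] at hn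
      refine (vn_sq_le (by omega)).trans ?_
      have hq := qn_nonneg (n + 1)
      have hn0 : (0 : ℝ) < n := by exact_mod_cast (by omega : 0 < n)
      have hn2 : (n : ℝ) ≤ 2 * m := by exact_mod_cast hn.2
      have hl : 1 + Real.log n ≤ 2 + Real.log m := by
        have h4 : Real.log n ≤ Real.log (2 * m) := Real.log_le_log hn0 hn2
        rw [Real.log_mul (by norm_num) hm0.ne'] at h4
        have := Real.log_two_lt_d9
        linarith
      have hl0 : 0 ≤ 1 + Real.log n := by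
        have : (1 : ℝ) ≤ n := by exact_mod_cast (by omega : 1 ≤ n)
        have := Real.log_nonneg this
        linarith
      calc 128 * mu ^ 2 * (n : ℝ) ^ 2 * (1 + Real.log n) * qn (n + 1)
          ≤ 128 * mu ^ 2 * (2 * (m : ℝ)) ^ 2 * (2 + Real.log m) * qn (n + 1) := by
            gcongr
        _ = _ := by ring
    refine h3.trans ?_
    rw [← Finset.mul_sum]
    have h5 : ∑ n ∈ Finset.Ioc m (2 * m), qn (n + 1) ≤ (m : ℝ) ^ (-(3 + ε)) := by
      calc ∑ n ∈ Finset.Ioc m (2 * m), qn (n + 1)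
          = ∑ n ∈ (Finset.Ioc m (2 * m)).image (· + 1), qn n := by
            rw [Finset.sum_image]
            intro a _ b _ hab
            simpa using hab
        _ ≤ ∑ n ∈ Finset.Ico (m + 2) (2 * (m + 2)), qn n := by
            apply Finset.sum_le_sum_of_subset_of_nonneg
            · intro n hn
              rw [Finset.mem_image] at hn
              obtain ⟨a, ha, rfl⟩ := hn
              rw [Finset.mem_Ioc] at ha
              rw [Finset.mem_Ico]
              omega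
            · intro n _ _
              exact qn_nonneg n
        _ ≤ ((m + 2 : ℕ) : ℝ) ^ (-(3 + ε)) := h
        _ ≤ _ := by
            apply Real.rpow_le_rpow_of_nonpos hm0 _ (by linarith)
            push_cast; linarith
    gcongr
  have h6 : 2 + Real.log m ≤ (2 + 2 / ε) * (m : ℝ) ^ (ε / 2) := by
    have h7 := Real.log_le_rpow_div (x := (m : ℝ)) hm0.le (ε := ε / 2) (by linarith)
    have h8 : (1 : ℝ) ≤ (m : ℝ) ^ (ε / 2) := Real.one_le_rpow hm1 (by linarith)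
    have h9 : (m : ℝ) ^ (ε / 2) / (ε / 2) = 2 / ε * (m : ℝ) ^ (ε / 2) := by
      field_simp
    rw [h9] at h7
    nlinarith
  have h10 : (∑ n ∈ Finset.Ioc m (2 * m), vn n) ^ 2 ≤
      (Real.sqrt (512 * mu ^ 2 * (2 + 2 / ε)) * (m : ℝ) ^ (-(ε / 4))) ^ 2 := by
    rw [mul_pow, Real.sq_sqrt (by positivity)]
    calc (∑ n ∈ Finset.Ioc m (2 * m), vn n) ^ 2
        ≤ (m : ℝ) * ∑ n ∈ Finset.Ioc m (2 * m), vn n ^ 2 := h1
      _ ≤ (m : ℝ) * (512 * mu ^ 2 * (m : ℝ) ^ 2 * ((2 + 2 / ε) * (m : ℝ) ^ (ε / 2)) *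
            (m : ℝ) ^ (-(3 + ε))) := by
          gcongr
          refine h2.trans ?_
          gcongr
      _ = 512 * mu ^ 2 * (2 + 2 / ε) * ((m : ℝ) ^ (3 : ℕ) * (m : ℝ) ^ (ε / 2) *
            (m : ℝ) ^ (-(3 + ε))) := by ring
      _ = 512 * mu ^ 2 * (2 + 2 / ε) * ((m : ℝ) ^ (-(ε / 4))) ^ 2 := by
          congr 1
          rw [← Real.rpow_natCast, ← Real.rpow_natCast, ← Real.rpow_mul hm0.le,
            ← Real.rpow_add hm0, ← Real.rpow_add hm0]
          congr 1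
          push_cast
          ring
  exact le_of_sq_le_sq h10 (by positivity)

/-- **block sums of polygons** -/
theorem blocks {ε : ℝ} (hε : 0 < ε) : ∃ K : ℝ, 0 ≤ K ∧ ∀ N : ℕ, 2 ≤ N → ∃ m : ℕ, N ≤ m ∧
    (m : ℝ) ≤ Real.exp (K * Real.log N ^ 2) ∧
    (m : ℝ) ^ (-(3 + ε)) ≤ ∑ n ∈ Finset.Ico m (2 * m), qn n := by
  obtain ⟨K, hK, hW⟩ := window_vn (ε := ε / 8) (by linarith)
  have hmu := mu_pos
  set D : ℝ := Real.sqrt (512 * mu ^ 2 * (2 + 2 / ε)) with hD
  have hD0 : 0 ≤ D := Real.sqrt_nonneg _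
  set ρ : ℝ := (2 : ℝ) ^ (-(ε / 4)) with hρ
  have hρ0 : 0 < ρ := by positivity
  have hρ1 : ρ < 1 := Real.rpow_lt_one_of_one_lt_of_neg (by norm_num) (by linarith)
  obtain ⟨T0, hT0def⟩ : ∃ T0 : ℕ, T0 = ⌈(2 * (D / (1 - ρ))) ^ (8 / ε)⌉₊ + 2 := ⟨_, rfl⟩
  have hT02 : 2 ≤ T0 := by omega
  have hT02r : (2 : ℝ) ≤ T0 := by exact_mod_cast hT02
  have hlT0 : 0 ≤ Real.log T0 := Real.log_nonneg (by linarith)
  refine ⟨4 + K * (1 + 2 * Real.log T0) ^ 2, by positivity, ?_⟩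
  intro N hN
  have hNr : (2 : ℝ) ≤ N := by exact_mod_cast hN
  have hl2 : (1 / 2 : ℝ) ≤ Real.log 2 := by
    have := Real.log_two_gt_d9
    linarith
  have hlN : Real.log 2 ≤ Real.log N := Real.log_le_log (by norm_num) hNr
  obtain ⟨T, M, hT, hM, hlow⟩ := hW (max N T0) (le_max_of_le_left hN)
  have hTN : N ≤ T := (le_max_left _ _).trans hT
  have hTT0 : T0 ≤ T := (le_max_right _ _).trans hT
  have hT0 : (0 : ℝ) < T := by exact_mod_cast (by omega : 0 < T)
  -- the length of the window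
  have hM' : (M : ℝ) + 1 ≤ Real.exp ((4 + K * (1 + 2 * Real.log T0) ^ 2) * Real.log N ^ 2) := by
    have h1 : Real.log ((max N T0 : ℕ) : ℝ) ≤ (1 + 2 * Real.log T0) * Real.log N := by
      have h2 : ((max N T0 : ℕ) : ℝ) ≤ (N : ℝ) * T0 := by
        push_cast
        apply max_le
        · nlinarith
        · nlinarith
      have h3 : Real.log ((max N T0 : ℕ) : ℝ) ≤ Real.log ((N : ℝ) * T0) := by
        apply Real.log_le_log _ h2
        have : 0 < max N T0 := by omega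
        exact_mod_cast this
      rw [Real.log_mul (by positivity) (by positivity)] at h3
      nlinarith
    have h4 : 0 ≤ Real.log ((max N T0 : ℕ) : ℝ) := Real.log_natCast_nonneg _
    have h5 : (1 : ℝ) ≤ 4 * Real.log N ^ 2 := by nlinarith
    have h6 : (M : ℝ) ≤ Real.exp (K * ((1 + 2 * Real.log T0) * Real.log N) ^ 2) := by
      refine hM.trans (Real.exp_le_exp.mpr ?_)
      gcongr
    have h7 : (1 : ℝ) ≤ Real.exp (K * ((1 + 2 * Real.log T0) * Real.log N) ^ 2) :=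
      Real.one_le_exp (by positivity)
    have h8 : (2 : ℝ) ≤ Real.exp 1 := by
      have := Real.exp_one_gt_d9; linarith
    calc (M : ℝ) + 1 ≤ 2 * Real.exp (K * ((1 + 2 * Real.log T0) * Real.log N) ^ 2) := by linarith
      _ ≤ Real.exp 1 * Real.exp (K * ((1 + 2 * Real.log T0) * Real.log N) ^ 2) := by gcongr
      _ = Real.exp (1 + K * ((1 + 2 * Real.log T0) * Real.log N) ^ 2) := by rw [← Real.exp_add]
      _ ≤ _ := by
          apply Real.exp_le_exp.mpr
          nlinarith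
  by_contra hcon
  push Not at hcon
  -- every block is small
  have hblock : ∀ j : ℕ, ∑ n ∈ Finset.Ioc (2 ^ j * T) (2 ^ (j + 1) * T),
      (if n ≤ M then vn n else 0) ≤ D * (T : ℝ) ^ (-(ε / 4)) * ρ ^ j := by
    intro j
    have hpos : 1 ≤ 2 ^ j * T := by
      have : 1 ≤ 2 ^ j := Nat.one_le_two_pow
      nlinarith
    have hge : T ≤ 2 ^ j * T := by
      have : 1 ≤ 2 ^ j := Nat.one_le_two_pow
      nlinarith
    rcases Nat.lt_or_ge (2 ^ j * T) M with h | h
    · have h1 : (2 ^ (j + 1) * T) = 2 * (2 ^ j * T) := by ring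
      rw [h1]
      have hlt := hcon (2 ^ j * T + 2) (by omega) (by
        refine le_trans ?_ hM'
        exact_mod_cast (by omega : 2 ^ j * T + 2 ≤ M + 1))
      have h2 := block_le hε hpos hlt.le
      calc ∑ n ∈ Finset.Ioc (2 ^ j * T) (2 * (2 ^ j * T)), (if n ≤ M then vn n else 0)
          ≤ ∑ n ∈ Finset.Ioc (2 ^ j * T) (2 * (2 ^ j * T)), vn n := by
            apply Finset.sum_le_sum
            intro n _
            split_ifs
            · exact le_rfl
            · exact vn_nonneg n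
        _ ≤ D * ((2 ^ j * T : ℕ) : ℝ) ^ (-(ε / 4)) := h2
        _ = _ := by
            push_cast
            rw [Real.mul_rpow (by positivity) (by positivity), hρ, ← Real.rpow_natCast,
              ← Real.rpow_natCast, ← Real.rpow_mul (by norm_num), ← Real.rpow_mul (by norm_num)]
            have : (j : ℝ) * -(ε / 4) = -(ε / 4) * (j : ℝ) := by ring
            rw [this]
            ring
    · have h1 : ∑ n ∈ Finset.Ioc (2 ^ j * T) (2 ^ (j + 1) * T), (if n ≤ M then vn n else 0) = 0 := by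
        apply Finset.sum_eq_zero
        intro n hn
        rw [Finset.mem_Ioc] at hn
        rw [if_neg (by omega)]
      rw [h1]
      positivity
  have hsum : ∑ n ∈ Finset.Ioc T M, vn n ≤ D * (T : ℝ) ^ (-(ε / 4)) * (1 - ρ)⁻¹ := by
    have h1 : ∑ n ∈ Finset.Ioc T M, vn n ≤
        ∑ n ∈ Finset.Ioc T (2 ^ M * T), (if n ≤ M then vn n else 0) := by
      have hMT : M ≤ 2 ^ M * T := by
        have h2 : M < 2 ^ M := Nat.lt_two_pow_self
        have h3 : 1 ≤ T := by omega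
        nlinarith
      calc ∑ n ∈ Finset.Ioc T M, vn n = ∑ n ∈ Finset.Ioc T M, (if n ≤ M then vn n else 0) := by
            apply Finset.sum_congr rfl
            intro n hn
            rw [Finset.mem_Ioc] at hn
            rw [if_pos hn.2]
        _ ≤ _ := by
            apply Finset.sum_le_sum_of_subset_of_nonneg
            · intro n hn
              rw [Finset.mem_Ioc] at hn ⊢
              omega
            · intro n _ _
              split_ifs
              · exact vn_nonneg n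
              · exact le_rfl
    refine h1.trans ?_
    rw [← sum_dyadic]
    refine (Finset.sum_le_sum fun j _ => hblock j).trans ?_
    rw [← Finset.mul_sum]
    gcongr
    have hs := hasSum_geometric_of_lt_one hρ0.le hρ1
    rw [← hs.tsum_eq]
    exact hs.summable.sum_le_tsum _ (fun n _ => by positivity)
  have hfin : (T : ℝ) ^ (ε / 8) ≤ 2 * (D / (1 - ρ)) := by
    have h1 := hlow.trans hsum
    have e1 : (T : ℝ) ^ (-(ε / 4)) = (T : ℝ) ^ (-(ε / 8)) * (T : ℝ) ^ (-(ε / 8)) := by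
      rw [← Real.rpow_add hT0]; congr 1; ring
    have e2 : (T : ℝ) ^ (-(ε / 8)) * (T : ℝ) ^ (ε / 8) = 1 := by
      rw [← Real.rpow_add hT0, neg_add_cancel, Real.rpow_zero]
    have hp : 0 < (T : ℝ) ^ (-(ε / 8)) := by positivity
    rw [e1] at h1
    have h2 : (1 : ℝ) / 2 ≤ D * (T : ℝ) ^ (-(ε / 8)) * (1 - ρ)⁻¹ := by
      have h3 : (T : ℝ) ^ (-(ε / 8)) * (1 / 2) ≤
          (T : ℝ) ^ (-(ε / 8)) * (D * (T : ℝ) ^ (-(ε / 8)) * (1 - ρ)⁻¹) := by
        calc _ = (T : ℝ) ^ (-(ε / 8)) / 2 := by ring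
          _ ≤ _ := h1
          _ = _ := by ring
      exact le_of_mul_le_mul_left h3 hp
    calc (T : ℝ) ^ (ε / 8) = 2 * ((1 / 2) * (T : ℝ) ^ (ε / 8)) := by ring
      _ ≤ 2 * ((D * (T : ℝ) ^ (-(ε / 8)) * (1 - ρ)⁻¹) * (T : ℝ) ^ (ε / 8)) := by gcongr
      _ = 2 * (D * (1 - ρ)⁻¹ * ((T : ℝ) ^ (-(ε / 8)) * (T : ℝ) ^ (ε / 8))) := by ring
      _ = _ := by rw [e2, div_eq_mul_inv, mul_one]
  have hTle : (T : ℝ) ≤ (2 * (D / (1 - ρ))) ^ (8 / ε) := by
    calc (T : ℝ) = ((T : ℝ) ^ (ε / 8)) ^ (8 / ε) := by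
          rw [← Real.rpow_mul hT0.le]
          have : ε / 8 * (8 / ε) = 1 := by field_simp
          rw [this, Real.rpow_one]
      _ ≤ _ := Real.rpow_le_rpow (by positivity) hfin (by positivity)
  have h1 : (T : ℝ) ≤ ⌈(2 * (D / (1 - ρ))) ^ (8 / ε)⌉₊ := hTle.trans (Nat.le_ceil _)
  have h2 : T ≤ ⌈(2 * (D / (1 - ρ))) ^ (8 / ε)⌉₊ := by exact_mod_cast h1
  omega

end Pool.Agent.H131.T1
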