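import Pool.Agent.H131.T1.Ev

/-!
The renewal equation for bridges and the logarithm of the series of bridges.
-/

set_option linter.unusedSectionVars false

namespace Pool.Agent.H131.T1

open H982 hiding PU
open scoped ENNReal
open PowerSeries

variable [L : H982.Lat]

/-- irreducible bridges -/
noncomputable def As : PS := fs (fun w => ii (Irr w) * xl w)

/-- irreducible bridges weighted by the length -/
noncomputable def Ar : PS := fs (fun w => ii (Irr w) * (cst (w.length : ℝ≥0∞) * xl w))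

lemma one_eq_fs : (1 : PS) = fs (fun w : List St => ii (w = []) * xl w) := by
  rw [fs_single _ []]
  · rw [ii_of rfl, xl_nil, one_mul]
  · intro j hj
    rw [ii_not hj, zero_mul]

lemma As_mul_Bs : As * Bs =
    fs (fun p : List St × List St => ii (Irr p.1 ∧ IsB p.2) * xl (p.1 ++ p.2)) := by
  unfold As Bs
  rw [fs_mul_fs]
  apply fs_congr
  intro p
  rw [ii_and, xl_append]
  ring

lemma Bs_eq : Bs = 1 + As * Bs := by
  apply le_antisymm
  · have h1 : Bs ≤ 1 + fs (fun w => ii (IsB w ∧ w ≠ []) * xl w) := by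
      rw [one_eq_fs, ← fs_add]
      unfold Bs
      apply fs_mono
      intro w
      by_cases h : w = []
      · subst h
        rw [ii_of isB_nil, ii_of rfl]
        exact le_self_add
      · rw [← add_mul]
        refine mul_le_mul' ?_ le_rfl
        exact (ii_mono fun hb => ⟨hb, h⟩).trans le_add_self
    refine h1.trans ?_
    rw [As_mul_Bs]
    refine add_le_add le_rfl ?_
    refine fs_cover _ _ _ _ (fun p : List St × List St => p.1 ++ p.2) ?_
    rintro w ⟨hw, hne⟩
    have hpos := hw.wd_pos hne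
    obtain ⟨X, ι, Y, rfl, hX, hι, hY, h3, h4⟩ := exists_triple hw.br (m := 0) hpos
    have hX0 : X = [] := by
      by_contra hc
      have := hX.wd_pos hc
      omega
    subst hX0
    exact ⟨(ι, Y), ⟨hι, hY⟩, by simp, by simp⟩
  · rw [As_mul_Bs]
    have h1 : fs (fun p : List St × List St => ii (Irr p.1 ∧ IsB p.2) * xl (p.1 ++ p.2)) ≤
        fs (fun w => ii (IsB w ∧ w ≠ []) * xl w) := by
      refine fs_inj _ _ _ _ (fun p : List St × List St => p.1 ++ p.2) ?_ ?_ ?_
      · rintro ⟨a, b⟩ ⟨a', b'⟩ ⟨h1, h2⟩ ⟨h3, h4⟩ he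
        simp only at h1 h2 h3 h4 he
        have k1 : 0 < wd ([] : List St) + wd a := by
          have := h1.1.wd_pos h1.2.1; omega
        have k2 : 0 < wd ([] : List St) + wd a' := by
          have := h3.1.wd_pos h3.2.1; omega
        have k0 : wd ([] : List St) ≤ 0 := by simp [wd]
        obtain ⟨-, e2, e3⟩ := triple_unique isB_nil h1 h2 isB_nil h3 h4
          (by simpa using he) (m := 0) k0 k1 k0 k2
        rw [e2, e3]
      · rintro ⟨a, b⟩ ⟨h1, h2⟩
        refine ⟨h1.1.append h2, ?_⟩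
        simp [h1.2.1]
      · intro p _
        exact le_rfl
    calc 1 + fs (fun p : List St × List St => ii (Irr p.1 ∧ IsB p.2) * xl (p.1 ++ p.2))
        ≤ fs (fun w : List St => ii (w = []) * xl w) +
          fs (fun w => ii (IsB w ∧ w ≠ []) * xl w) := by
          rw [← one_eq_fs]
          exact add_le_add le_rfl h1
      _ = fs (fun w : List St => ii (w = []) * xl w + ii (IsB w ∧ w ≠ []) * xl w) := by
          rw [fs_add]
      _ ≤ Bs := by
          unfold Bs
          apply fs_mono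
          intro w
          by_cases h : w = []
          · subst h
            rw [ii_of isB_nil, ii_of rfl, ii_not (p := IsB [] ∧ ([] : List St) ≠ []) (by simp)]
            simp
          · rw [ii_not h, zero_mul, zero_add]
            exact mul_le_mul' (ii_mono fun hb => hb.1) le_rfl

lemma coeff_zero_As : coeff 0 As = 0 := by
  unfold As
  rw [coeff_fs, ENNReal.tsum_eq_zero]
  intro w
  rw [coeff_ii_mul, coeff_xl]
  by_cases h : Irr w
  · have : w.length ≠ 0 := by
      intro h0
      exact h.2.1 (List.length_eq_zero_iff.mp h0)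
    rw [ind_not this, mul_zero]
  · rw [ind_not h, zero_mul]

lemma coeff_mul_pow_zero {f : PS} (hf : coeff 0 f = 0) (K : ℕ) (g : PS) {n : ℕ} (h : n < K) :
    coeff n (f ^ K * g) = 0 := by
  have hd : (X : PS) ∣ f := by
    rw [PowerSeries.X_dvd_iff]
    simpa using hf
  obtain ⟨f', rfl⟩ := hd
  rw [mul_pow, mul_assoc, PowerSeries.coeff_X_pow_mul', if_neg (by omega)]

lemma coeff_pow_zero {f : PS} (hf : coeff 0 f = 0) {K n : ℕ} (h : n < K) :
    coeff n (f ^ K) = 0 := by
  have := coeff_mul_pow_zero hf K 1 h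
  rwa [mul_one] at this

lemma Bs_geom (K : ℕ) : Bs = ∑ k ∈ Finset.range K, As ^ k + As ^ K * Bs := by
  induction K with
  | zero => simp
  | succ K ih =>
    conv_lhs => rw [ih]
    rw [Finset.sum_range_succ]
    conv_lhs => rw [Bs_eq]
    ring

lemma Bs_eq_fs : Bs = fs (fun k : ℕ => As ^ k) := by
  ext n
  rw [coeff_fs]
  conv_lhs => rw [Bs_geom (n + 1)]
  rw [map_add, coeff_mul_pow_zero coeff_zero_As (n + 1) Bs (by omega), add_zero, map_sum]
  rw [tsum_eq_sum (s := Finset.range (n + 1))]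
  intro k hk
  rw [Finset.mem_range, not_lt] at hk
  exact coeff_pow_zero coeff_zero_As (by omega)

/-- `∑ A ^ (k + 1) / (k + 1)` -/
noncomputable def Ch : PS := fs (fun k : ℕ => cst (((k + 1 : ℕ) : ℝ≥0∞)⁻¹) * As ^ (k + 1))

lemma Ch_le_Bs : Ch ≤ Bs := by
  rw [Bs_eq_fs]
  intro n
  unfold Ch
  rw [coeff_fs, coeff_fs]
  calc ∑' k : ℕ, coeff n (cst (((k + 1 : ℕ) : ℝ≥0∞)⁻¹) * As ^ (k + 1))
      ≤ ∑' k : ℕ, coeff n (As ^ (k + 1)) := by
        apply ENNReal.tsum_le_tsum
        intro k
        rw [coeff_cst_mul]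
        calc _ ≤ 1 * coeff n (As ^ (k + 1)) := by
              gcongr
              rw [ENNReal.inv_le_one]
              exact_mod_cast Nat.succ_le_succ (Nat.zero_le k)
          _ = _ := one_mul _
    _ ≤ ∑' k : ℕ, coeff n (As ^ k) :=
        ENNReal.tsum_comp_le_tsum_of_injective (fun a b h => Nat.succ_injective h)
          (fun k => coeff n (As ^ k))

lemma As_le_Ch : As ≤ Ch := by
  have h := le_fs (fun k : ℕ => cst (((k + 1 : ℕ) : ℝ≥0∞)⁻¹) * As ^ (k + 1)) 0
  unfold Ch
  refine le_trans (le_of_eq ?_) h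
  simp

/-- derivative -/
lemma X_mul_deriv_As : X * PowerSeries.derivative ℝ≥0∞ As = Ar := by
  ext n
  rcases n with _ | n
  · rw [PowerSeries.coeff_zero_X_mul]
    unfold Ar
    rw [coeff_fs]
    symm
    rw [ENNReal.tsum_eq_zero]
    intro w
    rw [coeff_ii_mul, coeff_cst_mul, coeff_xl]
    by_cases h : Irr w
    · have : w.length ≠ 0 := by
        intro h0
        exact h.2.1 (List.length_eq_zero_iff.mp h0)
      rw [ind_not this, mul_zero, mul_zero]
    · rw [ind_not h, zero_mul]
  · rw [PowerSeries.coeff_succ_X_mul, PowerSeries.coeff_derivative]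
    unfold As Ar
    rw [coeff_fs, coeff_fs, ← ENNReal.tsum_mul_right]
    congr 1; ext w
    rw [coeff_ii_mul, coeff_ii_mul, coeff_cst_mul, coeff_xl]
    by_cases h : w.length = n + 1
    · rw [ind_of h, h]; push_cast; ring
    · rw [ind_not h]; simp

lemma coeff_pow_mul_succ (f : PS) (k n : ℕ) : (n : ℝ≥0∞) * coeff n (f ^ (k + 1)) =
    ((k + 1 : ℕ) : ℝ≥0∞) * coeff n (f ^ k * (X * PowerSeries.derivative ℝ≥0∞ f)) := by
  rcases n with _ | n
  · have : f ^ k * (X * PowerSeries.derivative ℝ≥0∞ f) =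
      X * (f ^ k * PowerSeries.derivative ℝ≥0∞ f) := by ring
    rw [this, PowerSeries.coeff_zero_X_mul]
    simp
  · have h1 : f ^ k * (X * PowerSeries.derivative ℝ≥0∞ f) =
      X * (f ^ k * PowerSeries.derivative ℝ≥0∞ f) := by ring
    rw [h1, PowerSeries.coeff_succ_X_mul]
    have h2 := Derivation.leibniz_pow (PowerSeries.derivative ℝ≥0∞) f (k + 1)
    have h3 := congrArg (coeff n) h2
    have h4 : coeff n ((PowerSeries.derivative ℝ≥0∞) (f ^ (k + 1))) =
        coeff (n + 1) (f ^ (k + 1)) * ((n : ℝ≥0∞) + 1) := PowerSeries.coeff_derivative _ _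
    rw [h4] at h3
    rw [Nat.add_sub_cancel, smul_eq_mul, map_nsmul, nsmul_eq_mul] at h3
    push_cast at h3 ⊢
    rw [mul_comm, h3]

lemma coeff_Ch (n : ℕ) : (n : ℝ≥0∞) * coeff n Ch = coeff n (Bs * Ar) := by
  unfold Ch
  rw [coeff_fs, ← ENNReal.tsum_mul_left, Bs_eq_fs, fs_mul, coeff_fs, ← X_mul_deriv_As]
  congr 1; ext k
  rw [coeff_cst_mul, mul_left_comm, coeff_pow_mul_succ, ← mul_assoc, ENNReal.inv_mul_cancel,
    one_mul]
  · simp
  · exact ENNReal.natCast_ne_top _

end Pool.Agent.H131.T1
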