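import Pool.Agent.H131.T1.Win3

/-!
Words with a cyclic rotation which is a bridge.
-/

set_option linter.unusedSectionVars false

namespace Pool.Agent.H131.T1

open H982 hiding PU
open scoped ENNReal
open PowerSeries Filter

section

variable [L : H982.Lat]

/-- `w` has length `n` and a cyclic rotation of `w` is a bridge -/
def Rt (n : ℕ) (w : List St) : Prop := w.length = n ∧ ∃ i, IsB (w.drop i ++ w.take i)

noncomputable def gn (n : ℕ) : ℝ≥0∞ := ∑' w : List St, ind (Rt n w)

lemma rot_key {α α' β β' : List St} {k k' : ℕ} (hα : Irr α) (hα' : Irr α') (hβ : IsB β)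
    (hk' : k' < α'.length) (hlt : k < k')
    (he : α.drop k ++ (β ++ α.take k) = α'.drop k' ++ (β' ++ α'.take k')) : False := by
  have hsuf : α.take k <:+ α'.take k' := by
    have h1 : α.take k <:+ α'.drop k' ++ (β' ++ α'.take k') := by
      rw [← he]
      exact ⟨α.drop k ++ β, by simp⟩
    have h2 : α'.take k' <:+ α'.drop k' ++ (β' ++ α'.take k') := ⟨α'.drop k' ++ β', by simp⟩
    refine List.suffix_of_suffix_length_le h1 h2 ?_
    simp only [List.length_take]
    omega
  obtain ⟨u, hu⟩ := hsuf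
  have hlu : 0 < u.length := by
    have := congrArg List.length hu
    simp only [List.length_append, List.length_take] at this
    omega
  have he2 : α.drop k ++ β = α'.drop k' ++ (β' ++ u) := by
    have h1 : (α.drop k ++ β) ++ α.take k = (α'.drop k' ++ (β' ++ u)) ++ α.take k := by
      simp only [List.append_assoc]
      rw [hu]
      exact he
    exact List.append_cancel_right h1
  set V : List St := α.take k ++ α'.drop k' with hV
  have hγ : α ++ β = (V ++ β') ++ u := by
    calc α ++ β = α.take k ++ (α.drop k ++ β) := by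
          rw [← List.append_assoc, List.take_append_drop]
      _ = α.take k ++ (α'.drop k' ++ (β' ++ u)) := by rw [he2]
      _ = _ := by rw [hV]; simp only [List.append_assoc]
  have hα'uV : α' = u ++ V := by
    calc α' = α'.take k' ++ α'.drop k' := (List.take_append_drop k' α').symm
      _ = (u ++ α.take k) ++ α'.drop k' := by rw [hu]
      _ = _ := by rw [hV]; simp only [List.append_assoc]
  have hγB : IsB (α ++ β) := hα.1.append hβ
  obtain ⟨A, hA⟩ := hγB
  obtain ⟨A', hA'⟩ := hα'.1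
  have hupre : u <+: α' := ⟨V, hα'uV.symm⟩
  have hVpre : V <+: α ++ β := ⟨β' ++ u, by rw [hγ]; simp⟩
  have hHPu : HP u := hA'.hp.prew hupre
  have hHPV : HP V := hA.hp.prew hVpre
  have hdxA : H982.dx (α ++ β) = A := hA.dx
  have hdxA' : H982.dx α' = A' := hA'.dx
  have hBu : IsBr (H982.dx u).toNat u := by
    have h0 := hHPu.dx_nonneg
    have h1 : ((H982.dx u).toNat : ℤ) = H982.dx u := Int.toNat_of_nonneg h0
    refine ⟨hA'.saw.subw hupre.isInfix, hHPu, ?_, h1.symm⟩
    intro p hp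
    rw [h1]
    obtain ⟨r, hr⟩ := hp
    have h2 : (V ++ β') ++ p <+: α ++ β := ⟨r, by rw [hγ, ← hr]; simp⟩
    have h3 := hA.le h2
    rw [dx_append] at h3
    rw [hγ, dx_append] at hdxA
    omega
  have hBV : IsB V := by
    have h0 := hHPV.dx_nonneg
    have h1 : ((H982.dx V).toNat : ℤ) = H982.dx V := Int.toNat_of_nonneg h0
    refine ⟨(H982.dx V).toNat, hA.saw.subw hVpre.isInfix, hHPV, ?_, h1.symm⟩
    intro p hp
    rw [h1]
    obtain ⟨r, hr⟩ := hp
    have h2 : u ++ p <+: α' := ⟨r, by rw [hα'uV, ← hr]; simp⟩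
    have h3 := hA'.le h2
    rw [dx_append] at h3
    rw [hα'uV, dx_append] at hdxA'
    omega
  have hspl : Spl (H982.dx u).toNat α' u V := ⟨hα'uV, hBu, hBV⟩
  have hlen := congrArg List.length hα'uV
  have hlenu := congrArg List.length hu
  simp only [List.length_append, List.length_take] at hlen hlenu
  rcases hα'.2.2 _ _ _ hspl with h | h
  · rw [h] at hlu; simp at hlu
  · rw [h] at hlen
    simp at hlen
    omega

lemma rot_inj {α α' β β' : List St} {k k' : ℕ} (hα : Irr α) (hα' : Irr α') (hβ : IsB β)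
    (hβ' : IsB β') (hk : k < α.length) (hk' : k' < α'.length)
    (he : α.drop k ++ (β ++ α.take k) = α'.drop k' ++ (β' ++ α'.take k')) :
    k = k' ∧ α = α' ∧ β = β' := by
  rcases lt_trichotomy k k' with h | h | h
  · exact (rot_key hα hα' hβ hk' h he).elim
  · subst h
    have h1 : (α.drop k ++ β) ++ α.take k = (α'.drop k ++ β') ++ α'.take k := by
      simpa using he
    obtain ⟨h2, h3⟩ := List.append_inj' h1 (by simp; omega)
    have h4 : α ++ β = α' ++ β' := by
      calc α ++ β = α.take k ++ (α.drop k ++ β) := by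
            rw [← List.append_assoc, List.take_append_drop]
        _ = α'.take k ++ (α'.drop k ++ β') := by rw [h2, h3]
        _ = _ := by rw [← List.append_assoc, List.take_append_drop]
    have k1 : 0 < wd ([] : List St) + wd α := by
      have := hα.1.wd_pos hα.2.1; omega
    have k2 : 0 < wd ([] : List St) + wd α' := by
      have := hα'.1.wd_pos hα'.2.1; omega
    have k0 : wd ([] : List St) ≤ 0 := by simp [wd]
    obtain ⟨-, e2, e3⟩ := triple_unique isB_nil hα hβ isB_nil hα' hβ'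
      (by simpa using h4) (m := 0) k0 k1 k0 k2
    exact ⟨rfl, e2, e3⟩
  · exact (rot_key hα' hα hβ' hk h he.symm).elim

/-- the cyclic words counted by the derivative of the logarithm -/
theorem coeff_BA_le (n : ℕ) : coeff n (Bs * Ar) ≤ gn n := by
  have h1 : Bs * Ar = fs (fun q : ℕ × (List St × List St) =>
      ii (q.1 < q.2.1.length ∧ (Irr q.2.1 ∧ IsB q.2.2)) * (xl q.2.1 * xl q.2.2)) := by
    unfold Bs Ar
    rw [mul_comm, fs_mul_fs]
    conv_rhs => rw [fs_prod, fs_comm]
    apply fs_congr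
    intro p
    rw [cst_nat_eq]
    calc ii (Irr p.1) * (fs (fun m => ii (m < p.1.length) * 1) * xl p.1) *
          (ii (IsB p.2) * xl p.2)
        = (ii (Irr p.1) * xl p.1 * (ii (IsB p.2) * xl p.2)) *
            fs (fun m => ii (m < p.1.length) * 1) := by ring
      _ = _ := by
        rw [mul_fs]
        congr 1; ext1 m
        rw [ii_and, ii_and]; ring
  rw [h1, coeff_fs]
  have h2 : ∀ q : ℕ × (List St × List St),
      coeff n (ii (q.1 < q.2.1.length ∧ (Irr q.2.1 ∧ IsB q.2.2)) * (xl q.2.1 * xl q.2.2)) =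
      ind ((q.1 < q.2.1.length ∧ (Irr q.2.1 ∧ IsB q.2.2)) ∧ (q.2.1 ++ q.2.2).length = n) * 1 := by
    intro q
    rw [coeff_ii_mul, ← xl_append, coeff_xl, mul_one, ← ind_and]
  simp_rw [h2]
  have h3 : gn n = ∑' w : List St, ind (Rt n w) * 1 := by
    unfold gn; simp
  rw [h3]
  refine tsum_inj _ _ _ _ (fun q : ℕ × (List St × List St) =>
    q.2.1.drop q.1 ++ (q.2.2 ++ q.2.1.take q.1)) ?_ ?_ ?_
  · rintro ⟨k, α, β⟩ ⟨k', α', β'⟩ ⟨⟨a1, a2, a3⟩, a4⟩ ⟨⟨b1, b2, b3⟩, b4⟩ he
    obtain ⟨e1, e2, e3⟩ := rot_inj a2 b2 a3 b3 a1 b1 he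
    simp only at e1 e2 e3
    rw [e1, e2, e3]
  · rintro ⟨k, α, β⟩ ⟨⟨a1, a2, a3⟩, a4⟩
    simp only at a1 a2 a3 a4 ⊢
    refine ⟨?_, (α.drop k ++ β).length, ?_⟩
    · rw [List.length_append] at a4
      simp only [List.length_append, List.length_drop, List.length_take]
      omega
    · have e1 : α.drop k ++ (β ++ α.take k) = (α.drop k ++ β) ++ α.take k := by simp
      rw [e1, List.drop_left, List.take_left, ← List.append_assoc, List.take_append_drop]
      exact a2.1.append a3
  · intro q _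
    exact le_rfl

/-- the window theorem for cyclic words -/
theorem window_gn {ε : ℝ} (hε : 0 < ε) : ∃ K : ℝ, 0 ≤ K ∧ ∀ N : ℕ, 2 ≤ N → ∃ T M : ℕ, N ≤ T ∧
    (M : ℝ) ≤ Real.exp (K * Real.log N ^ 2) ∧
    ENNReal.ofReal ((T : ℝ) ^ (-ε) / 2) ≤
      ∑ n ∈ Finset.Ioc T M, gn n * ENNReal.ofReal ((n * mu ^ n)⁻¹) := by
  obtain ⟨K, hK, h⟩ := window (L := L) hε
  refine ⟨K, hK, fun N hN => ?_⟩
  obtain ⟨T, M, h1, h2, h3⟩ := h N hN
  refine ⟨T, M, h1, h2, h3.trans ?_⟩
  apply Finset.sum_le_sum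
  intro n hn
  rw [Finset.mem_Ioc] at hn
  have hn0 : (0 : ℝ) < n := by exact_mod_cast (by omega : 0 < n)
  have hmu := mu_pos
  have h4 : coeff n Ch ≤ gn n * ENNReal.ofReal ((n : ℝ)⁻¹) := by
    have h5 := coeff_BA_le n
    rw [← coeff_Ch] at h5
    have e : (n : ℝ≥0∞) = ENNReal.ofReal n := (ENNReal.ofReal_natCast n).symm
    calc coeff n Ch = (ENNReal.ofReal ((n : ℝ)⁻¹) * n) * coeff n Ch := by
          rw [e, ← ENNReal.ofReal_mul (by positivity), inv_mul_cancel₀ hn0.ne', ENNReal.ofReal_one,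
            one_mul]
      _ = ENNReal.ofReal ((n : ℝ)⁻¹) * (n * coeff n Ch) := by rw [mul_assoc]
      _ ≤ ENNReal.ofReal ((n : ℝ)⁻¹) * gn n := by gcongr
      _ = _ := mul_comm _ _
  calc coeff n Ch * ENNReal.ofReal ((mu ^ n)⁻¹)
      ≤ gn n * ENNReal.ofReal ((n : ℝ)⁻¹) * ENNReal.ofReal ((mu ^ n)⁻¹) := by gcongr
    _ = _ := by
      rw [mul_assoc, ← ENNReal.ofReal_mul (by positivity), mul_inv]

end

/-! ### transfer to the words of the square lattice -/

open H500S

/-- `w` has length `n` and a cyclic rotation of `w` is a bridge -/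
def Rq (n : ℕ) (w : List H981.St) : Prop := w.length = n ∧ ∃ i, H981.IsB (w.drop i ++ w.take i)

noncomputable def gq (n : ℕ) : ℝ≥0∞ := ∑' w : List H981.St, H981.ind (Rq n w)

lemma Rt_tw (n : ℕ) (w : List H981.St) : @Rt sL n (tw w) ↔ Rq n w := by
  unfold Rt Rq
  rw [tw_length]
  have h : ∀ i, (tw w).drop i ++ (tw w).take i = tw (w.drop i ++ w.take i) := by
    intro i
    unfold tw
    rw [List.map_append, List.map_drop, List.map_take]
  simp_rw [h, isB_tw]

lemma gn_eq (n : ℕ) : @gn sL n = gq n := by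
  unfold gn gq
  rw [← tw_inj.tsum_eq]
  · apply tsum_congr
    intro w
    rw [ind_eq, Rt_tw]
  · intro v hv
    rw [Function.mem_support] at hv
    by_contra hcon
    apply hv
    apply H982.ind_not
    rintro ⟨-, i, a, h1⟩
    have h2 := (@H982.IsBr.saw sL _ _ h1).2
    apply hcon
    apply ok_range
    intro s hs
    apply h2 s
    rw [← List.take_append_drop i v, List.mem_append] at hs
    rw [List.mem_append]
    exact hs.symm

lemma cc_eq (n : ℕ) : @H982.cc sL n = H981.cc n := by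
  unfold H982.cc H981.cc
  rw [← tw_inj.tsum_eq]
  · apply tsum_congr
    intro w
    rw [ind_eq, saw_tw, tw_length]
  · intro v hv
    rw [Function.mem_support] at hv
    by_contra hcon
    apply hv
    apply H982.ind_not
    rintro ⟨h1, -⟩
    exact hcon (ok_range h1.2)

lemma mu_eq : @H982.mu sL = H981.mu := by
  have h1 := @H982.tendsto_root sL
  have h2 := H981.tendsto_root
  have h3 : (fun n : ℕ => @H982.cr' sL n ^ (1 / (n:ℝ))) = fun n : ℕ => H981.cr' n ^ (1 / (n:ℝ)) := by
    funext n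
    unfold H982.cr' H981.cr'
    rw [cc_eq]
  rw [h3] at h1
  exact tendsto_nhds_unique h1 h2

/-- the window theorem for cyclic words of the square lattice -/
theorem window_gq {ε : ℝ} (hε : 0 < ε) : ∃ K : ℝ, 0 ≤ K ∧ ∀ N : ℕ, 2 ≤ N → ∃ T M : ℕ, N ≤ T ∧
    (M : ℝ) ≤ Real.exp (K * Real.log N ^ 2) ∧
    ENNReal.ofReal ((T : ℝ) ^ (-ε) / 2) ≤
      ∑ n ∈ Finset.Ioc T M, gq n * ENNReal.ofReal ((n * H981.mu ^ n)⁻¹) := by
  obtain ⟨K, hK, h⟩ := window_gn (L := sL) hε
  refine ⟨K, hK, fun N hN => ?_⟩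
  obtain ⟨T, M, h1, h2, h3⟩ := h N hN
  refine ⟨T, M, h1, h2, ?_⟩
  simp_rw [mu_eq, gn_eq] at h3
  exact h3

end Pool.Agent.H131.T1
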