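import Pool.Agent.H131.T1.Rot

/-!
Sliding one periodic self-avoiding path towards another one, and gluing them into a polygon.
-/

set_option linter.unusedSectionVars false

namespace Pool.Agent.H131.T1

open H981
open scoped ENNReal

/-! ### powers of words -/

/-- `w` repeated `m` times -/
def Wp (w : List St) (m : ℕ) : List St := (List.replicate m w).flatten

lemma Wp_zero (w : List St) : Wp w 0 = [] := rfl

lemma Wp_succ (w : List St) (m : ℕ) : Wp w (m + 1) = w ++ Wp w m := by
  unfold Wp; rw [List.replicate_succ, List.flatten_cons]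

lemma Wp_add (w : List St) (m k : ℕ) : Wp w (m + k) = Wp w m ++ Wp w k := by
  unfold Wp; rw [List.replicate_add, List.flatten_append]

lemma Wp_length (w : List St) (m : ℕ) : (Wp w m).length = m * w.length := by
  induction m with
  | zero => simp [Wp_zero]
  | succ m ih => rw [Wp_succ, List.length_append, ih]; ring

lemma Wp_rot (u v : List St) (m : ℕ) : Wp (u ++ v) (m + 1) = u ++ (Wp (v ++ u) m ++ v) := by
  induction m with
  | zero => simp [Wp_succ, Wp_zero]
  | succ m ih =>
    rw [Wp_succ, ih, Wp_succ]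
    simp only [List.append_assoc]

lemma isB_Wp {w : List St} (h : IsB w) (m : ℕ) : IsB (Wp w m) := by
  induction m with
  | zero => rw [Wp_zero]; exact isB_nil
  | succ m ih => rw [Wp_succ]; exact h.append ih

/-- all powers of `w` are self-avoiding -/
def PSaw (w : List St) : Prop := ∀ m, Saw (Wp w m)

lemma pSaw_of_rot {n : ℕ} {w : List St} (h : Rq n w) : PSaw w := by
  obtain ⟨-, i, hi⟩ := h
  intro m
  have h1 := (isB_Wp hi (m + 1)).br.saw
  rw [Wp_rot, List.take_append_drop] at h1
  exact h1.subw ⟨w.drop i, w.take i, by simp⟩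

lemma dx_rot (w : List St) (i : ℕ) : dx (w.drop i ++ w.take i) = dx w := by
  rw [dx_append, add_comm, ← dx_append, List.take_append_drop]

lemma dy_rot (w : List St) (i : ℕ) : dy (w.drop i ++ w.take i) = dy w := by
  rw [dy_append, add_comm, ← dy_append, List.take_append_drop]

lemma dx_pos_of_rot {n : ℕ} (hn : 1 ≤ n) {w : List St} (h : Rq n w) : 0 < dx w := by
  obtain ⟨hl, i, hi⟩ := h
  rw [← dx_rot w i]
  refine hi.br.hp _ (List.prefix_refl _) ?_
  intro h0
  have := congrArg List.length h0
  simp only [List.length_append, List.length_drop, List.length_take, List.length_nil] at this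
  omega

/-- the periodic path of a word -/
def PP' (w : List St) (k : ℕ) : ℤ × ℤ := pf (Wp w (k + 1)) k

lemma pf_prefix {u v : List St} (h : u <+: v) {k : ℕ} (hk : k ≤ u.length) : pf u k = pf v k := by
  obtain ⟨r, rfl⟩ := h
  unfold pf
  rw [List.take_append_of_le_length hk]

lemma PP'_eq {w : List St} {m k : ℕ} (hw : 1 ≤ w.length) (hk : k ≤ m * w.length) :
    PP' w k = pf (Wp w m) k := by
  unfold PP'
  rcases le_total (k + 1) m with h | h
  · obtain ⟨d, rfl⟩ := Nat.exists_eq_add_of_le h
    apply pf_prefix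
    · rw [Wp_add w (k + 1) d]; exact List.prefix_append _ _
    · rw [Wp_length]; nlinarith
  · obtain ⟨d, hd⟩ := Nat.exists_eq_add_of_le h
    rw [hd]
    symm
    apply pf_prefix
    · rw [Wp_add]; exact List.prefix_append _ _
    · rw [Wp_length]; exact hk

lemma PP'_zero (w : List St) : PP' w 0 = (0, 0) := by unfold PP'; exact pf_zero _

lemma pf_append_right (u v : List St) (k : ℕ) :
    pf (u ++ v) (u.length + k) = (dx u + (pf v k).1, dy u + (pf v k).2) := by
  unfold pf
  rw [List.take_length_add_append]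
  simp

lemma PP'_add {w : List St} (hw : 1 ≤ w.length) (k : ℕ) :
    PP' w (w.length + k) = (dx w + (PP' w k).1, dy w + (PP' w k).2) := by
  have hk : k ≤ k * w.length := by nlinarith
  rw [PP'_eq (m := k + 1) hw (by rw [Nat.succ_mul]; omega), Wp_succ, pf_append_right,
    PP'_eq (m := k) hw hk]

lemma PP'_add_mul {w : List St} (hw : 1 ≤ w.length) (q k : ℕ) :
    PP' w (q * w.length + k) = (q * dx w + (PP' w k).1, q * dy w + (PP' w k).2) := by
  induction q with
  | zero => simp
  | succ q ih =>
    have e : (q + 1) * w.length + k = w.length + (q * w.length + k) := by ring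
    rw [e, PP'_add hw, ih]
    push_cast
    ext <;> simp <;> ring

lemma PP'_adj {w : List St} (hw : 1 ≤ w.length) (k : ℕ) :
    |(PP' w (k + 1)).1 - (PP' w k).1| + |(PP' w (k + 1)).2 - (PP' w k).2| = 1 := by
  have hk : k + 1 ≤ (k + 1) * w.length := by nlinarith
  rw [PP'_eq (m := k + 1) hw hk, PP'_eq (m := k + 1) hw (by omega)]
  apply pf_adj
  rw [Wp_length]; omega

lemma PP'_inj {w : List St} (hw : 1 ≤ w.length) (h : PSaw w) {k l : ℕ}
    (he : PP' w k = PP' w l) : k = l := by
  have hk : k ≤ (k + l) * w.length := by nlinarith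
  have hl : l ≤ (k + l) * w.length := by nlinarith
  rw [PP'_eq (m := k + l) hw hk, PP'_eq (m := k + l) hw hl] at he
  exact pf_inj_on (h _) (by rw [Wp_length]; exact hk) (by rw [Wp_length]; exact hl) he

/-- the path of a rotated word -/
lemma pf_rot {w : List St} (hw : 1 ≤ w.length) {r k : ℕ} (hr : r ≤ w.length)
    (hk : k ≤ w.length) : pf (w.drop r ++ w.take r) k =
      ((PP' w (r + k)).1 - (PP' w r).1, (PP' w (r + k)).2 - (PP' w r).2) := by
  have e : Wp w 2 = w.take r ++ ((w.drop r ++ w.take r) ++ w.drop r) := by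
    rw [Wp_succ, Wp_succ, Wp_zero, List.append_nil]
    calc w ++ w = (w.take r ++ w.drop r) ++ (w.take r ++ w.drop r) := by
          rw [List.take_append_drop]
      _ = _ := by simp only [List.append_assoc]
  have hlen : (w.take r).length = r := by rw [List.length_take]; omega
  have h1 : PP' w (r + k) = (dx (w.take r) + (pf (w.drop r ++ w.take r) k).1,
      dy (w.take r) + (pf (w.drop r ++ w.take r) k).2) := by
    rw [PP'_eq (m := 2) hw (by omega), e]
    have h2 := pf_append_right (w.take r) ((w.drop r ++ w.take r) ++ w.drop r) k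
    rw [hlen] at h2
    rw [h2, ← pf_prefix (u := w.drop r ++ w.take r) (List.prefix_append _ _) (by
      simp only [List.length_append, List.length_drop, List.length_take]; omega)]
  have h3 : PP' w r = (dx (w.take r), dy (w.take r)) := by
    rw [PP'_eq (m := 1) hw (by omega)]
    have : Wp w 1 = w := by rw [Wp_succ, Wp_zero, List.append_nil]
    rw [this]
    rfl
  rw [h1, h3]
  ext <;> simp

lemma saw_rot' {w : List St} (h : PSaw w) (r : ℕ) : Saw (w.drop r ++ w.take r) := by
  have h1 := h 2
  refine h1.subw ⟨w.take r, w.drop r, ?_⟩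
  rw [Wp_succ, Wp_succ, Wp_zero, List.append_nil]
  calc w.take r ++ (w.drop r ++ w.take r) ++ w.drop r
      = (w.take r ++ w.drop r) ++ (w.take r ++ w.drop r) := by simp only [List.append_assoc]
    _ = _ := by rw [List.take_append_drop]

/-! ### general gluing -/

theorem glue_loop' {n : ℕ} (hn : 1 ≤ n) {w₁ w₂ : List St} (S1 : Saw w₁) (L1 : w₁.length = n)
    (S2 : Saw w₂) (L2 : w₂.length = n) (X : dx w₁ = dx w₂) (Y : dy w₁ = dy w₂)
    (D : ∀ k l, k ≤ n → l ≤ n → ((pf w₁ k).1, (pf w₁ k).2 + 1) ≠ pf w₂ l) :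
    IsLoop (2 * (n + 1)) (glue n w₁ w₂) := by
  have : NeZero (2 * (n + 1)) := ⟨by omega⟩
  have hlt : ∀ i : ZMod (2 * (n + 1)), i.val < 2 * (n + 1) := fun i => ZMod.val_lt i
  refine ⟨by simp [glue], ?_, ?_⟩
  · intro i j hij
    apply ZMod.val_injective
    have hi := hlt i
    have hj := hlt j
    by_cases i0 : i.val = 0
    · have gi : glue n w₁ w₂ i = pf w₂ 0 := by simp [glue, i0, pf_zero]
      by_cases j0 : j.val = 0
      · omega
      · by_cases j1 : j.val ≤ n + 1
        · have gj : glue n w₁ w₂ j = ((pf w₁ (j.val - 1)).1, (pf w₁ (j.val - 1)).2 + 1) := by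
            simp [glue, j0, j1]
          exact (D (j.val - 1) 0 (by omega) (by omega) (by rw [← gj, ← hij, gi])).elim
        · have gj : glue n w₁ w₂ j = pf w₂ (2 * n + 2 - j.val) := by simp [glue, j0, j1]
          have : pf w₂ 0 = pf w₂ (2 * n + 2 - j.val) := by rw [← gj, ← hij, gi]
          have := pf_inj_on S2 (by omega) (by omega) this
          omega
    · by_cases i1 : i.val ≤ n + 1
      · have gi : glue n w₁ w₂ i = ((pf w₁ (i.val - 1)).1, (pf w₁ (i.val - 1)).2 + 1) := by
          simp [glue, i0, i1]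
        by_cases j0 : j.val = 0
        · have gj : glue n w₁ w₂ j = pf w₂ 0 := by simp [glue, j0, pf_zero]
          exact (D (i.val - 1) 0 (by omega) (by omega) (by rw [← gi, hij, gj])).elim
        · by_cases j1 : j.val ≤ n + 1
          · have gj : glue n w₁ w₂ j = ((pf w₁ (j.val - 1)).1, (pf w₁ (j.val - 1)).2 + 1) := by
              simp [glue, j0, j1]
            rw [gi, gj, Prod.mk.injEq] at hij
            have : pf w₁ (i.val - 1) = pf w₁ (j.val - 1) := Prod.ext hij.1 (by omega)
            have := pf_inj_on S1 (by omega) (by omega) this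
            omega
          · have gj : glue n w₁ w₂ j = pf w₂ (2 * n + 2 - j.val) := by simp [glue, j0, j1]
            exact (D (i.val - 1) (2 * n + 2 - j.val) (by omega) (by omega)
              (by rw [← gi, hij, gj])).elim
      · have gi : glue n w₁ w₂ i = pf w₂ (2 * n + 2 - i.val) := by simp [glue, i0, i1]
        by_cases j0 : j.val = 0
        · have gj : glue n w₁ w₂ j = pf w₂ 0 := by simp [glue, j0, pf_zero]
          have : pf w₂ 0 = pf w₂ (2 * n + 2 - i.val) := by rw [← gi, hij, gj]
          have := pf_inj_on S2 (by omega) (by omega) this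
          omega
        · by_cases j1 : j.val ≤ n + 1
          · have gj : glue n w₁ w₂ j = ((pf w₁ (j.val - 1)).1, (pf w₁ (j.val - 1)).2 + 1) := by
              simp [glue, j0, j1]
            exact (D (j.val - 1) (2 * n + 2 - i.val) (by omega) (by omega)
              (by rw [← gj, ← hij, gi])).elim
          · have gj : glue n w₁ w₂ j = pf w₂ (2 * n + 2 - j.val) := by simp [glue, j0, j1]
            rw [gi, gj] at hij
            have := pf_inj_on S2 (by omega) (by omega) hij
            omega
  · intro i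
    have hi := hlt i
    have hval : (i + 1).val = (i.val + 1) % (2 * (n + 1)) := by
      rw [ZMod.val_add, ZMod.val_one_eq_one_mod, Nat.mod_eq_of_lt (by omega : 1 < 2 * (n + 1))]
    rcases Nat.lt_or_ge (i.val + 1) (2 * (n + 1)) with hlast | hlast
    · rw [Nat.mod_eq_of_lt hlast] at hval
      have n0 : ¬ (i + 1).val = 0 := by omega
      by_cases i0 : i.val = 0
      · have gi : glue n w₁ w₂ i = (0, 0) := by simp [glue, i0]
        have gj : glue n w₁ w₂ (i + 1) = (0, 1) := by
          have : (i + 1).val ≤ n + 1 := by omega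
          simp only [glue, n0, this, if_false, if_true]
          rw [hval, i0]
          simp [pf_zero]
        rw [gi, gj]; simp
      · by_cases i1 : i.val ≤ n
        · have gi : glue n w₁ w₂ i = ((pf w₁ (i.val - 1)).1, (pf w₁ (i.val - 1)).2 + 1) := by
            have : i.val ≤ n + 1 := by omega
            simp [glue, i0, this]
          have gj : glue n w₁ w₂ (i + 1) =
              ((pf w₁ (i.val - 1 + 1)).1, (pf w₁ (i.val - 1 + 1)).2 + 1) := by
            have : (i + 1).val ≤ n + 1 := by omega
            simp only [glue, n0, this, if_false, if_true]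
            rw [hval]
            have : i.val + 1 - 1 = i.val - 1 + 1 := by omega
            rw [this]
          rw [gi, gj]
          have := pf_adj (w := w₁) (i := i.val - 1) (by omega)
          simpa using this
        · by_cases i2 : i.val = n + 1
          · have gi : glue n w₁ w₂ i = (dx w₂, dy w₂ + 1) := by
              simp only [glue, i0, i2, if_false, if_true, le_refl]
              have : n + 1 - 1 = n := by omega
              rw [this, ← L1, pf_ge le_rfl, X, Y]
              simp
            have gj : glue n w₁ w₂ (i + 1) = (dx w₂, dy w₂) := by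
              have : ¬ (i + 1).val ≤ n + 1 := by omega
              simp only [glue, n0, this, if_false]
              rw [hval, i2]
              have : 2 * n + 2 - (n + 1 + 1) = n := by omega
              rw [this, ← L2, pf_ge le_rfl]
            rw [gi, gj]; simp
          · have gi : glue n w₁ w₂ i = pf w₂ (2 * n + 2 - (i.val + 1) + 1) := by
              have : ¬ i.val ≤ n + 1 := by omega
              simp only [glue, i0, this, if_false]
              congr 1; omega
            have gj : glue n w₁ w₂ (i + 1) = pf w₂ (2 * n + 2 - (i.val + 1)) := by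
              have : ¬ (i + 1).val ≤ n + 1 := by omega
              simp only [glue, n0, this, if_false]
              rw [hval]
            rw [gi, gj]
            have := pf_adj (w := w₂) (i := 2 * n + 2 - (i.val + 1)) (by omega)
            rw [abs_sub_comm, abs_sub_comm (pf w₂ (2 * n + 2 - (i.val + 1))).2]
            exact this
    · have hi' : i.val = 2 * n + 1 := by omega
      have hz : (i + 1).val = 0 := by
        rw [hval, hi']
        have : 2 * n + 1 + 1 = 2 * (n + 1) := by ring
        rw [this, Nat.mod_self]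
      have gj : glue n w₁ w₂ (i + 1) = pf w₂ 0 := by simp [glue, hz, pf_zero]
      have gi : glue n w₁ w₂ i = pf w₂ (0 + 1) := by
        have h3 : ¬ i.val = 0 := by omega
        have h4 : ¬ i.val ≤ n + 1 := by omega
        simp only [glue, h3, h4, if_false]
        congr 1; omega
      rw [gi, gj]
      have := pf_adj (w := w₂) (i := 0) (by omega)
      rw [abs_sub_comm, abs_sub_comm (pf w₂ 0).2]
      exact this

/-! ### sliding -/

/-- discrete intermediate value theorem -/
lemma exists_x (f : ℕ → ℤ) (hf : ∀ k, |f (k + 1) - f k| ≤ 1) (h0 : f 0 = 0) {s : ℤ} (hs : 0 ≤ s)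
    {m : ℕ} (hm : s ≤ f m) : ∃ k, f k = s := by
  classical
  have hex : ∃ k, s ≤ f k := ⟨m, hm⟩
  refine ⟨Nat.find hex, ?_⟩
  have h1 := Nat.find_spec hex
  rcases Nat.eq_zero_or_pos (Nat.find hex) with h | h
  · rw [h] at h1 ⊢; omega
  · have h2 : ¬ s ≤ f (Nat.find hex - 1) := Nat.find_min hex (by omega)
    have h3 := hf (Nat.find hex - 1)
    rw [Nat.sub_add_cancel h, abs_le] at h3
    omega

lemma lv_bdd {w : List St} (hw : 1 ≤ w.length) : ∃ C : ℤ, ∀ k,
    |dx w * (PP' w k).2 - dy w * (PP' w k).1| ≤ C := by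
  refine ⟨∑ r ∈ Finset.range w.length, |dx w * (PP' w r).2 - dy w * (PP' w r).1|, fun k => ?_⟩
  have h1 : dx w * (PP' w k).2 - dy w * (PP' w k).1 =
      dx w * (PP' w (k % w.length)).2 - dy w * (PP' w (k % w.length)).1 := by
    conv_lhs => rw [← Nat.div_add_mod' k w.length, PP'_add_mul hw]
    ring
  rw [h1]
  exact Finset.single_le_sum (f := fun r => |dx w * (PP' w r).2 - dy w * (PP' w r).1|)
    (fun _ _ => abs_nonneg _) (Finset.mem_range.mpr (Nat.mod_lt _ (by omega)))

/-- **sliding**: for every horizontal shift `s` there are rotations of the two words which can be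
glued. -/
theorem slide {n : ℕ} (hn : 1 ≤ n) {w₁ w₂ : List St} (L1 : w₁.length = n) (L2 : w₂.length = n)
    (S1 : PSaw w₁) (S2 : PSaw w₂) (ha : 0 < dx w₁) (X : dx w₂ = dx w₁) (Y : dy w₂ = dy w₁)
    {s : ℤ} (hs : 0 ≤ s) : ∃ r₁ r₂ : ℕ, r₁ < n ∧ r₂ < n ∧
      (dx w₁ ∣ s - ((pf w₁ r₁).1 - (pf w₂ r₂).1)) ∧
      IsLoop (2 * (n + 1)) (glue n (w₂.drop r₂ ++ w₂.take r₂) (w₁.drop r₁ ++ w₁.take r₁)) := by
  have hw1 : 1 ≤ w₁.length := by omega
  have hw2 : 1 ≤ w₂.length := by omega
  obtain ⟨C1, hC1⟩ := lv_bdd hw1
  obtain ⟨C2, hC2⟩ := lv_bdd hw2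
  -- the possible heights of the intersections
  let Q : ℤ → Prop := fun t => ∃ i j : ℕ, (PP' w₁ i).1 = (PP' w₂ j).1 + s ∧
    (PP' w₁ i).2 = (PP' w₂ j).2 + t
  have hQne : ∃ t, Q t := by
    obtain ⟨k, hk⟩ := exists_x (fun k => (PP' w₁ k).1) (fun k => by
      have := PP'_adj hw1 k
      have h2 := abs_nonneg ((PP' w₁ (k + 1)).2 - (PP' w₁ k).2)
      omega) (by simp [PP'_zero]) hs (m := s.toNat * w₁.length + 0) (by
        rw [PP'_add_mul hw1, PP'_zero]
        have h1 : (s.toNat : ℤ) = s := Int.toNat_of_nonneg hs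
        rw [h1]
        nlinarith)
    refine ⟨(PP' w₁ k).2, k, 0, ?_, ?_⟩
    · rw [hk, PP'_zero]; simp
    · rw [PP'_zero]; simp
  have hQb : ∃ b, ∀ t, Q t → t ≤ b := by
    refine ⟨C1 + C2 + |dy w₁ * s|, ?_⟩
    rintro t ⟨i, j, h1, h2⟩
    have h3 := hC1 i
    have h4 := hC2 j
    rw [X, Y] at h4
    rw [abs_le] at h3 h4
    have h5 : dx w₁ * t = (dx w₁ * (PP' w₁ i).2 - dy w₁ * (PP' w₁ i).1) -
        (dx w₁ * (PP' w₂ j).2 - dy w₁ * (PP' w₂ j).1) + dy w₁ * s := by
      rw [h1, h2]; ring
    have h6 : dx w₁ * t ≤ C1 + C2 + |dy w₁ * s| := by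
      have := le_abs_self (dy w₁ * s)
      omega
    by_cases ht : 0 ≤ t
    · nlinarith
    · have : 0 ≤ C1 + C2 + |dy w₁ * s| := by
        have := abs_nonneg (dy w₁ * s)
        omega
      omega
  obtain ⟨t, ⟨i, j, hi, hj⟩, hmax⟩ := Int.exists_greatest_of_bdd hQb hQne
  refine ⟨i % n, j % n, Nat.mod_lt _ (by omega), Nat.mod_lt _ (by omega), ?_, ?_⟩
  · have e1 : (PP' w₁ i).1 = ((i / n : ℕ) : ℤ) * dx w₁ + (pf w₁ (i % n)).1 := by
      conv_lhs => rw [← Nat.div_add_mod' i w₁.length, PP'_add_mul hw1]
      rw [L1]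
      simp only
      congr 1
      rw [PP'_eq (m := 1) hw1 (by rw [L1, one_mul]; exact (Nat.mod_lt _ (by omega)).le)]
      rw [Wp_succ, Wp_zero, List.append_nil]
    have e2 : (PP' w₂ j).1 = ((j / n : ℕ) : ℤ) * dx w₂ + (pf w₂ (j % n)).1 := by
      conv_lhs => rw [← Nat.div_add_mod' j w₂.length, PP'_add_mul hw2]
      rw [L2]
      simp only
      congr 1
      rw [PP'_eq (m := 1) hw2 (by rw [L2, one_mul]; exact (Nat.mod_lt _ (by omega)).le)]
      rw [Wp_succ, Wp_zero, List.append_nil]
    rw [X] at e2
    refine ⟨((i / n : ℕ) : ℤ) - ((j / n : ℕ) : ℤ), ?_⟩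
    have : s = (PP' w₁ i).1 - (PP' w₂ j).1 := by omega
    rw [this, e1, e2]; ring
  · refine glue_loop' hn (saw_rot' S2 _) ?_ (saw_rot' S1 _) ?_ ?_ ?_ ?_
    · simp only [List.length_append, List.length_drop, List.length_take]
      have := Nat.mod_lt j (by omega : 0 < n)
      omega
    · simp only [List.length_append, List.length_drop, List.length_take]
      have := Nat.mod_lt i (by omega : 0 < n)
      omega
    · rw [dx_rot, dx_rot, X]
    · rw [dy_rot, dy_rot, Y]
    · intro k l hk hl heq
      have hr1 := Nat.mod_lt i (by omega : 0 < n)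
      have hr2 := Nat.mod_lt j (by omega : 0 < n)
      rw [pf_rot hw2 (by omega) (by omega), pf_rot hw1 (by omega) (by omega)] at heq
      simp only [Prod.mk.injEq] at heq
      obtain ⟨g1, g2⟩ := heq
      -- go back to the indices `i + l`, `j + k`
      have f1 : ∀ c, PP' w₁ (i + c) = ((i / n : ℕ) * dx w₁ + (PP' w₁ (i % n + c)).1,
          (i / n : ℕ) * dy w₁ + (PP' w₁ (i % n + c)).2) := by
        intro c
        have e : i + c = (i / n) * w₁.length + (i % n + c) := by
          rw [L1, ← add_assoc, Nat.div_add_mod']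
        conv_lhs => rw [e, PP'_add_mul hw1]
      have f2 : ∀ c, PP' w₂ (j + c) = ((j / n : ℕ) * dx w₁ + (PP' w₂ (j % n + c)).1,
          (j / n : ℕ) * dy w₁ + (PP' w₂ (j % n + c)).2) := by
        intro c
        have e : j + c = (j / n) * w₂.length + (j % n + c) := by
          rw [L2, ← add_assoc, Nat.div_add_mod']
        conv_lhs => rw [e, PP'_add_mul hw2, X, Y]
      have a1 := f1 l
      have a2 := f1 0
      have a3 := f2 k
      have a4 := f2 0
      rw [add_zero, add_zero] at a2 a4
      have : Q (t + 1) := by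
        refine ⟨i + l, j + k, ?_, ?_⟩
        · rw [a1, a3]
          rw [a2, a4] at hi
          simp only at hi ⊢
          linarith
        · rw [a1, a3]
          rw [a2, a4] at hj
          simp only at hj ⊢
          linarith
      have := hmax _ this
      omega

end Pool.Agent.H131.T1
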