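import Pool.Agent.H131.T1.Ren

/-!
Analysis at a subcritical point: if all coefficients of the logarithm of the series of bridges
beyond `N` are small then the point is at distance at least `exp (-C (log N)^2)` from the
critical point.
-/

set_option linter.unusedSectionVars false

namespace Pool.Agent.H131.T1

open H982 hiding PU
open scoped ENNReal
open PowerSeries

variable [L : H982.Lat]

lemma bn_le_mu (n : ℕ) : bn n ≤ ENNReal.ofReal (mu ^ n) := by
  rw [← ofReal_br']
  exact ENNReal.ofReal_le_ofReal (br'_le n)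

lemma ev_Bs_ne_top {ξ : ℝ} (h0 : 0 ≤ ξ) (h : mu * ξ < 1) : ev (ENNReal.ofReal ξ) Bs ≠ ⊤ := by
  have hm := mu_pos
  have h1 : ev (ENNReal.ofReal ξ) Bs ≤ ∑' n : ℕ, (ENNReal.ofReal (mu * ξ)) ^ n := by
    unfold ev
    apply ENNReal.tsum_le_tsum
    intro n
    calc coeff n Bs * ENNReal.ofReal ξ ^ n ≤ ENNReal.ofReal (mu ^ n) * ENNReal.ofReal ξ ^ n := by
          gcongr
          exact bn_le_mu n
      _ = _ := by
          rw [← ENNReal.ofReal_pow h0, ← ENNReal.ofReal_mul (by positivity), ← mul_pow,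
            ENNReal.ofReal_pow (by positivity)]
  refine ne_top_of_le_ne_top ?_ h1
  rw [ENNReal.tsum_geometric]
  refine ENNReal.inv_ne_top.mpr ?_
  rw [Ne, tsub_eq_zero_iff_le, not_le]
  exact ENNReal.ofReal_lt_one.mpr h

lemma ev_Bs_eq (x : ℝ≥0∞) : ev x Bs = 1 + ev x As * ev x Bs := by
  conv_lhs => rw [Bs_eq]
  rw [ev_add, ev_one, ev_mul]

/-- real form of the renewal equation -/
lemma real_ren {x : ℝ≥0∞} (hx : ev x Bs ≠ ⊤) :
    ev x As ≠ ⊤ ∧ 0 ≤ (ev x As).toReal ∧ (ev x As).toReal < 1 ∧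
      (ev x Bs).toReal * (1 - (ev x As).toReal) = 1 := by
  have h1 := ev_Bs_eq x
  have hle : ev x As ≤ ev x Bs := by
    have h2 : 1 ≤ ev x Bs := by
      have := ev_mono (x := x) one_le_Bs
      rwa [ev_one] at this
    calc ev x As = ev x As * 1 := (mul_one _).symm
      _ ≤ ev x As * ev x Bs := by gcongr
      _ ≤ 1 + ev x As * ev x Bs := le_add_self
      _ = _ := h1.symm
  have hA : ev x As ≠ ⊤ := ne_top_of_le_ne_top hx hle
  have h3 := congrArg ENNReal.toReal h1
  rw [ENNReal.toReal_add ENNReal.one_ne_top (ENNReal.mul_ne_top hA hx), ENNReal.toReal_mul,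
    ENNReal.toReal_one] at h3
  have hb : 0 ≤ (ev x Bs).toReal := ENNReal.toReal_nonneg
  have ha : 0 ≤ (ev x As).toReal := ENNReal.toReal_nonneg
  refine ⟨hA, ha, ?_, by linarith⟩
  by_contra hc
  push Not at hc
  nlinarith

lemma ev_Bs_le_exp {x : ℝ≥0∞} (hx : ev x Bs ≠ ⊤) {c : ℝ} (h : ev x Ch ≤ ENNReal.ofReal c)
    (hc : 0 ≤ c) : ev x Bs ≤ ENNReal.ofReal (Real.exp c) := by
  obtain ⟨hA, ha0, ha1, hb⟩ := real_ren hx
  set a := (ev x As).toReal
  have hAa : ev x As = ENNReal.ofReal a := (ENNReal.ofReal_toReal hA).symm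
  have hs := Real.hasSum_pow_div_log_of_abs_lt_one (x := a) (by rw [abs_lt]; constructor <;> linarith)
  have h1 : ev x Ch = ENNReal.ofReal (-Real.log (1 - a)) := by
    unfold Ch
    rw [ev_fs, ← hs.tsum_eq, ENNReal.ofReal_tsum_of_nonneg (fun n => by positivity) hs.summable]
    congr 1; ext k
    rw [ev_cst_mul, ev_pow, hAa, ← ENNReal.ofReal_pow ha0, ENNReal.ofReal_div_of_pos (by positivity),
      ENNReal.div_eq_inv_mul]
    congr 2
    rw [← ENNReal.ofReal_natCast]
    push_cast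
    rfl
  rw [h1, ENNReal.ofReal_le_ofReal_iff hc] at h
  rw [← ENNReal.ofReal_toReal hx]
  apply ENNReal.ofReal_le_ofReal
  have h2 : (ev x Bs).toReal = Real.exp (-Real.log (1 - a)) := by
    rw [Real.exp_neg, Real.exp_log (by linarith)]
    exact eq_inv_of_mul_eq_one_left hb
  rw [h2]
  exact Real.exp_le_exp.mpr h

/-- the low coefficients -/
lemma sum_low_le {x : ℝ≥0∞} (hx : ev x Bs ≠ ⊤) (N : ℕ) :
    ∑ n ∈ Finset.range (N + 1), coeff n Ch * x ^ n ≤ ENNReal.ofReal (1 + Real.log N) := by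
  obtain ⟨hA, ha0, ha1, hb⟩ := real_ren hx
  have hA1 : ev x As ≤ 1 := by
    rw [← ENNReal.ofReal_toReal hA, ← ENNReal.ofReal_one]
    exact ENNReal.ofReal_le_ofReal ha1.le
  set F : PS := ∑ k ∈ Finset.range N, cst (((k + 1 : ℕ) : ℝ≥0∞)⁻¹) * As ^ (k + 1) with hF
  have h1 : ∀ n ∈ Finset.range (N + 1), coeff n Ch * x ^ n = coeff n F * x ^ n := by
    intro n hn
    rw [Finset.mem_range] at hn
    congr 1
    unfold Ch
    rw [coeff_fs, hF, map_sum]
    apply tsum_eq_sum
    intro k hk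
    rw [Finset.mem_range, not_lt] at hk
    rw [coeff_cst_mul, coeff_pow_zero coeff_zero_As (by omega), mul_zero]
  rw [Finset.sum_congr rfl h1]
  refine (ENNReal.sum_le_tsum _).trans ?_
  change ev x F ≤ _
  have h2 : ev x F = ∑ k ∈ Finset.range N, (((k + 1 : ℕ) : ℝ≥0∞)⁻¹) * ev x As ^ (k + 1) := by
    rw [hF]
    clear hF h1
    clear_value F
    clear F
    induction N with
    | zero =>
      simp only [Finset.range_zero, Finset.sum_empty]
      unfold ev
      simp
    | succ N ih => rw [Finset.sum_range_succ, ev_add, ih, Finset.sum_range_succ, ev_cst_mul, ev_pow]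
  rw [h2]
  have h3 : ∑ k ∈ Finset.range N, (((k + 1 : ℕ) : ℝ≥0∞)⁻¹) * ev x As ^ (k + 1) ≤
      ∑ k ∈ Finset.range N, ENNReal.ofReal (((k + 1 : ℕ) : ℝ)⁻¹) := by
    apply Finset.sum_le_sum
    intro k _
    calc (((k + 1 : ℕ) : ℝ≥0∞)⁻¹) * ev x As ^ (k + 1) ≤ (((k + 1 : ℕ) : ℝ≥0∞)⁻¹) * 1 := by
          gcongr
          exact pow_le_one' hA1 _
      _ = _ := by
          rw [mul_one, ENNReal.ofReal_inv_of_pos (by positivity), ENNReal.ofReal_natCast]
  refine h3.trans ?_
  rw [← ENNReal.ofReal_sum_of_nonneg (fun k _ => by positivity)]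
  apply ENNReal.ofReal_le_ofReal
  have h4 := harmonic_le_one_add_log N
  refine le_trans (le_of_eq ?_) h4
  unfold harmonic
  push_cast
  rfl

/-- the tail of the logarithm of the series of bridges -/
noncomputable def tau (x : ℝ≥0∞) (T : ℕ) : ℝ≥0∞ := ∑' n, if T < n then coeff n Ch * x ^ n else 0

/-- bound for the logarithm -/
lemma ev_Ch_le {x : ℝ≥0∞} (hx : ev x Bs ≠ ⊤) (N : ℕ) :
    ev x Ch ≤ ENNReal.ofReal (1 + Real.log N) + tau x N := by
  have h1 : ∀ n, coeff n Ch * x ^ n = (if n ∈ Finset.range (N + 1) then coeff n Ch * x ^ n else 0) +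
      (if N < n then coeff n Ch * x ^ n else 0) := by
    intro n
    by_cases hn : n ∈ Finset.range (N + 1)
    · rw [if_pos hn]
      rw [Finset.mem_range] at hn
      rw [if_neg (by omega), add_zero]
    · rw [if_neg hn, zero_add]
      rw [Finset.mem_range] at hn
      rw [if_pos (by omega)]
  calc ev x Ch = ∑' n, ((if n ∈ Finset.range (N + 1) then coeff n Ch * x ^ n else 0) +
      (if N < n then coeff n Ch * x ^ n else 0)) := tsum_congr h1
    _ = ∑ n ∈ Finset.range (N + 1), coeff n Ch * x ^ n + tau x N := by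
        rw [ENNReal.tsum_add]
        congr 1
        rw [tsum_eq_sum (s := Finset.range (N + 1))]
        · apply Finset.sum_congr rfl
          intro n hn
          rw [if_pos hn]
        · intro n hn
          rw [if_neg hn]
    _ ≤ _ := by
        gcongr
        exact sum_low_le hx N

/-! ### long bridges -/

/-- short irreducible bridges -/
noncomputable def Al (T : ℕ) : PS := fs (fun w => ii (Irr w ∧ w.length ≤ T) * xl w)

/-- long irreducible bridges -/
noncomputable def Ah (T : ℕ) : PS := fs (fun w => ii (Irr w ∧ T < w.length) * xl w)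

lemma As_split (T : ℕ) : As = Al T + Ah T := by
  unfold As Al Ah
  rw [← fs_add]
  apply fs_congr
  intro w
  by_cases h : Irr w
  · rcases Nat.lt_or_ge T w.length with h2 | h2
    · rw [ii_of h, ii_not (p := Irr w ∧ w.length ≤ T) (by omega), ii_of (p := Irr w ∧ T < w.length)
        ⟨h, h2⟩]
      ring
    · rw [ii_of h, ii_not (p := Irr w ∧ T < w.length) (by omega), ii_of (p := Irr w ∧ w.length ≤ T)
        ⟨h, h2⟩]
      ring
  · rw [ii_not h, ii_not (p := Irr w ∧ w.length ≤ T) (fun h' => h h'.1),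
      ii_not (p := Irr w ∧ T < w.length) (fun h' => h h'.1)]
    ring

lemma coeff_Al {T n : ℕ} (h : T < n) : coeff n (Al T) = 0 := by
  unfold Al
  rw [coeff_fs, ENNReal.tsum_eq_zero]
  intro w
  rw [coeff_ii_mul, coeff_xl]
  by_cases h2 : w.length = n
  · rw [ind_not (p := Irr w ∧ w.length ≤ T) (by omega), zero_mul]
  · rw [ind_not h2, mul_zero]

lemma coeff_Ah_le (T n : ℕ) : coeff n (Ah T) ≤ coeff n Ch := by
  refine le_trans ?_ (As_le_Ch n)
  rw [As_split T, map_add]
  exact le_add_self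

lemma coeff_Ah_zero {T n : ℕ} (h : n ≤ T) : coeff n (Ah T) = 0 := by
  unfold Ah
  rw [coeff_fs, ENNReal.tsum_eq_zero]
  intro w
  rw [coeff_ii_mul, coeff_xl]
  by_cases h2 : w.length = n
  · rw [ind_not (p := Irr w ∧ T < w.length) (by omega), zero_mul]
  · rw [ind_not h2, mul_zero]

lemma coeff_Al_pow {T : ℕ} (k : ℕ) : ∀ n, k * T < n → coeff n (Al T ^ k) = 0 := by
  induction k with
  | zero =>
    intro n hn
    rw [pow_zero, PowerSeries.coeff_one, if_neg (by omega)]
  | succ k ih =>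
    intro n hn
    rw [pow_succ, PowerSeries.coeff_mul]
    apply Finset.sum_eq_zero
    intro p hp
    rw [Finset.HasAntidiagonal.mem_antidiagonal] at hp
    rcases Nat.lt_or_ge (k * T) p.1 with h | h
    · rw [ih _ h, zero_mul]
    · rw [coeff_Al (by rw [Nat.succ_mul] at hn; omega), mul_zero]

lemma As_pow_le (T k : ℕ) : As ^ (k + 1) ≤ Al T ^ (k + 1) + cst ((k + 1 : ℕ) : ℝ≥0∞) *
    (Ah T * As ^ k) := by
  induction k with
  | zero => simp [← As_split]
  | succ k ih =>
    have hAl : Al T ≤ As := by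
      rw [As_split T]; exact le_self_add
    calc As ^ (k + 1 + 1) = As * As ^ (k + 1) := by ring
      _ ≤ As * (Al T ^ (k + 1) + cst ((k + 1 : ℕ) : ℝ≥0∞) * (Ah T * As ^ k)) := by gcongr
      _ = (Al T + Ah T) * Al T ^ (k + 1) +
            cst ((k + 1 : ℕ) : ℝ≥0∞) * (Ah T * As ^ (k + 1)) := by
          rw [mul_add, ← As_split T]
          ring
      _ = Al T ^ (k + 1 + 1) + (Ah T * Al T ^ (k + 1) +
            cst ((k + 1 : ℕ) : ℝ≥0∞) * (Ah T * As ^ (k + 1))) := by ring
      _ ≤ Al T ^ (k + 1 + 1) + (Ah T * As ^ (k + 1) +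
            cst ((k + 1 : ℕ) : ℝ≥0∞) * (Ah T * As ^ (k + 1))) := by gcongr
      _ = _ := by
          have : cst (((k + 1 + 1 : ℕ)) : ℝ≥0∞) = 1 + cst ((k + 1 : ℕ) : ℝ≥0∞) := by
            rw [← cst_one, ← cst_add]
            congr 1; push_cast; ring
          rw [this]; ring

/-- the bound for long bridges -/
lemma bn_long_le {T K n : ℕ} (hn : K * T < n) :
    bn n ≤ coeff n (cst (K : ℝ≥0∞) * (Ah T * Bs) + As ^ (K + 1) * Bs) := by
  unfold bn
  conv_lhs => rw [Bs_geom (K + 1)]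
  rw [map_add, map_add]
  refine add_le_add ?_ le_rfl
  rw [Finset.sum_range_succ', map_add, pow_zero, PowerSeries.coeff_one, if_neg (by omega), add_zero,
    map_sum, coeff_cst_mul]
  calc ∑ k ∈ Finset.range K, coeff n (As ^ (k + 1))
      ≤ ∑ k ∈ Finset.range K, (K : ℝ≥0∞) * coeff n (Ah T * As ^ k) := by
        apply Finset.sum_le_sum
        intro k hk
        rw [Finset.mem_range] at hk
        refine (As_pow_le T k n).trans ?_
        rw [map_add, coeff_Al_pow (k + 1) n (by nlinarith), zero_add, coeff_cst_mul]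
        gcongr
        omega
    _ = (K : ℝ≥0∞) * coeff n (Ah T * ∑ k ∈ Finset.range K, As ^ k) := by
        rw [← Finset.mul_sum]
        congr 1
        rw [Finset.mul_sum, map_sum]
    _ ≤ _ := by
        gcongr
        refine (mul_le_mul' (le_refl (Ah T)) ?_) n
        conv_rhs => rw [Bs_geom K]
        exact le_self_add

lemma Tw_le {T K m : ℕ} (hm : K * T < m) :
    Tw m ≤ cst (K : ℝ≥0∞) * (Ah T * Bs) + As ^ (K + 1) * Bs := by
  intro n
  rcases Nat.lt_or_ge n m with h | h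
  · have : coeff n (Tw m) = 0 := by
      unfold Tw
      rw [coeff_fs, ENNReal.tsum_eq_zero]
      intro w
      rw [coeff_ii_mul, coeff_xl]
      by_cases h2 : w.length = n
      · rw [ind_not (p := IsB w ∧ m ≤ wd w), zero_mul]
        rintro ⟨h3, h4⟩
        have h5 := h3.wd_eq_dx
        have h6 := dx_le_length w
        omega
      · rw [ind_not h2, mul_zero]
    rw [this]
    exact zero_le
  · refine le_trans ?_ (bn_long_le (by omega))
    unfold bn
    refine (?_ : Tw m ≤ Bs) n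
    unfold Tw Bs
    exact fs_mono fun w => mul_le_mul' (ii_mono fun hb => hb.1) le_rfl

lemma ev_Ah_le (x : ℝ≥0∞) (T : ℕ) : ev x (Ah T) ≤ tau x T := by
  unfold ev tau
  apply ENNReal.tsum_le_tsum
  intro n
  rcases Nat.lt_or_ge T n with h | h
  · rw [if_pos h]
    gcongr
    exact coeff_Ah_le T n
  · rw [coeff_Ah_zero h, zero_mul]
    exact zero_le

/-- the series of all walks against the series of half-plane walks -/
lemma cc_series_le (x : ℝ≥0∞) : x * ∑' n, cc n * x ^ n ≤
    (∑' l, hh l * x ^ l) * ∑' l, hh l * x ^ l := by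
  set F : PS := PowerSeries.mk (fun l => hh (l + 1)) with hF
  set G : PS := PowerSeries.mk hh with hG
  have h1 : ∀ n, cc n * x ^ n ≤ coeff n (F * G) * x ^ n := by
    intro n
    gcongr
    refine (cc_le n).trans (le_of_eq ?_)
    rw [PowerSeries.coeff_mul, Finset.Nat.sum_antidiagonal_eq_sum_range_succ_mk]
    apply Finset.sum_congr rfl
    intro k _
    rw [hF, hG, coeff_mk, coeff_mk]
  have h2 : ∑' n, cc n * x ^ n ≤ ev x F * ev x G := by
    rw [← ev_mul]
    exact ENNReal.tsum_le_tsum h1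
  have h3 : x * ev x F ≤ ∑' l, hh l * x ^ l := by
    unfold ev
    rw [← ENNReal.tsum_mul_left]
    calc ∑' n, x * (coeff n F * x ^ n) = ∑' n, hh (n + 1) * x ^ (n + 1) := by
          congr 1; ext n
          rw [hF, coeff_mk, pow_succ]; ring
      _ ≤ _ := ENNReal.tsum_comp_le_tsum_of_injective (fun a b h => Nat.succ_injective h)
          (fun l => hh l * x ^ l)
  have h4 : ev x G = ∑' l, hh l * x ^ l := by
    unfold ev
    congr 1; ext l
    rw [hG, coeff_mk]
  calc x * ∑' n, cc n * x ^ n ≤ x * (ev x F * ev x G) := by gcongr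
    _ = (x * ev x F) * ev x G := by ring
    _ ≤ _ := by rw [h4]; gcongr

lemma walk_lower {ξ : ℝ} (h0 : 0 ≤ ξ) (h : mu * ξ < 1) :
    ENNReal.ofReal (1 / (1 - mu * ξ)) ≤ ∑' n, cc n * ENNReal.ofReal ξ ^ n := by
  have hm := mu_pos
  have hs := hasSum_geometric_of_lt_one (mul_nonneg hm.le h0) h
  rw [one_div, ← hs.tsum_eq, ENNReal.ofReal_tsum_of_nonneg (fun n => by positivity) hs.summable]
  apply ENNReal.tsum_le_tsum
  intro n
  rw [mul_pow, ENNReal.ofReal_mul (by positivity), ENNReal.ofReal_pow h0, ← ofReal_cr']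
  gcongr
  exact mu_pow_le n

/-- the inequality at a subcritical point -/
theorem main_ineq {ξ : ℝ} (h0 : 0 < ξ) (h : mu * ξ < 1) (m : ℕ) {w : ℝ} (hw : 0 ≤ w)
    (hT : ev (ENNReal.ofReal ξ) (Tw (2 ^ m)) ≤ ENNReal.ofReal w) :
    ξ * (1 / (1 - mu * ξ)) ≤ (1 + Real.exp (w + 600000000 * (m : ℝ) ^ 2)) ^ 2 := by
  have h1 := hh_ev_le (ev_Bs_ne_top h0.le h) m hw hT
  have h2 := cc_series_le (ENNReal.ofReal ξ)
  have h3 := walk_lower h0.le h
  have h4 : ENNReal.ofReal (ξ * (1 / (1 - mu * ξ))) ≤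
      ENNReal.ofReal ((1 + Real.exp (w + 600000000 * (m : ℝ) ^ 2)) ^ 2) := by
    rw [ENNReal.ofReal_mul h0.le, ENNReal.ofReal_pow (by positivity), pow_two]
    calc ENNReal.ofReal ξ * ENNReal.ofReal (1 / (1 - mu * ξ))
        ≤ ENNReal.ofReal ξ * ∑' n, cc n * ENNReal.ofReal ξ ^ n := by gcongr
      _ ≤ _ := h2
      _ ≤ _ := by gcongr
  exact (ENNReal.ofReal_le_ofReal_iff (by positivity)).mp h4

end Pool.Agent.H131.T1
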