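import Pool.Agent.H131.T1.Win1

/-!
If all the tails beyond `T ≥ N` of the logarithm of the series of bridges at a subcritical point
are at most `T ^ (-ε)`, then the point is at distance at least `exp (-C (log N)^2)` from the
critical point.
-/

set_option linter.unusedSectionVars false

namespace Pool.Agent.H131.T1

open H982 hiding PU
open scoped ENNReal
open PowerSeries

variable [L : H982.Lat]

lemma log_two_ge : (1 / 2 : ℝ) ≤ Real.log 2 := by
  have := Real.log_two_gt_d9; linarith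

lemma log_two_le : Real.log 2 ≤ 1 := by
  have := Real.log_two_lt_d9; linarith

theorem point_bound {ε : ℝ} (hε : 0 < ε) : ∃ C : ℝ, 0 ≤ C ∧ ∀ N : ℕ, 2 ≤ N → ∀ ξ : ℝ, 0 < ξ →
    1 / 2 ≤ mu * ξ → mu * ξ < 1 →
    (∀ T, N ≤ T → tau (ENNReal.ofReal ξ) T ≤ ENNReal.ofReal ((T : ℝ) ^ (-ε))) →
    1 / (1 - mu * ξ) ≤ Real.exp (C * Real.log N ^ 2) := by
  set C2 : ℝ := (10 + 10 / ε) * 5 with hC2
  have hC20 : 0 ≤ C2 := by positivity
  have hmu := one_le_mu
  have hmu0 := mu_pos
  have hl8 : 0 ≤ Real.log (8 * mu) := Real.log_nonneg (by linarith)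
  refine ⟨4 * (Real.log (8 * mu) + 4) + 1200000000 * C2 ^ 2, by positivity, ?_⟩
  intro N hN ξ hξ hlo hhi H
  have hx := ev_Bs_ne_top hξ.le hhi
  set x := ENNReal.ofReal ξ with hxdef
  have hNr : (2 : ℝ) ≤ N := by exact_mod_cast hN
  have hN0 : (0 : ℝ) < N := by linarith
  have hl2 := log_two_ge
  have hlN : Real.log 2 ≤ Real.log N := Real.log_le_log (by norm_num) hNr
  have hlN0 : 0 < Real.log N := by linarith
  -- the bound for the series of bridges
  set lb : ℝ := 2 + Real.log N with hlb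
  have hlb1 : 2 ≤ lb := by rw [hlb]; linarith
  set Bb : ℝ := Real.exp lb with hBb
  have hBb0 : 0 < Bb := Real.exp_pos _
  have hBblb : lb + 1 ≤ Bb := by rw [hBb]; exact Real.add_one_le_exp lb
  have hBb2 : 2 ≤ Bb := by linarith
  have hBb1 : 1 ≤ Bb := by linarith
  have hBbN : (N : ℝ) ≤ Bb := by
    rw [hBb, hlb]
    calc (N : ℝ) = Real.exp (Real.log N) := (Real.exp_log hN0).symm
      _ ≤ _ := Real.exp_le_exp.mpr (by linarith)
  have hB : ev x Bs ≤ ENNReal.ofReal Bb := by
    have h1 := ev_Ch_le hx N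
    have h2 : tau x N ≤ ENNReal.ofReal 1 := by
      refine (H N le_rfl).trans (ENNReal.ofReal_le_ofReal ?_)
      exact Real.rpow_le_one_of_one_le_of_nonpos (by linarith) (by linarith)
    refine ev_Bs_le_exp hx (h1.trans ((add_le_add le_rfl h2).trans ?_)) (by linarith)
    rw [← ENNReal.ofReal_add (by linarith) (by norm_num)]
    apply ENNReal.ofReal_le_ofReal
    rw [hlb]; linarith
  have hBr : (ev x Bs).toReal ≤ Bb := by
    have := ENNReal.toReal_mono ENNReal.ofReal_ne_top hB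
    rwa [ENNReal.toReal_ofReal hBb0.le] at this
  obtain ⟨hA, ha0, ha1, hab⟩ := real_ren hx
  set a := (ev x As).toReal with ha
  set b := (ev x Bs).toReal with hb
  have hAa : ev x As = ENNReal.ofReal a := (ENNReal.ofReal_toReal hA).symm
  have haexp : a ≤ Real.exp (-(1 / Bb)) := by
    have h1 : 1 / Bb ≤ 1 - a := by
      rw [div_le_iff₀ hBb0]
      have : b * (1 - a) ≤ Bb * (1 - a) := mul_le_mul_of_nonneg_right hBr (by linarith)
      linarith
    have h2 := Real.add_one_le_exp (-(1 / Bb))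
    linarith
  -- parameters
  set K0 : ℕ := ⌈Bb ^ 2⌉₊ with hK0
  set q : ℝ := 1 + 5 / ε with hq
  have hq0 : 0 ≤ q := by positivity
  set T : ℕ := ⌈Bb ^ q⌉₊ with hTdef
  have hBb2' : 1 ≤ Bb ^ 2 := one_le_pow₀ hBb1
  have hBbq : Bb ≤ Bb ^ q := by
    calc Bb = Bb ^ (1 : ℝ) := (Real.rpow_one _).symm
      _ ≤ _ := Real.rpow_le_rpow_of_exponent_le hBb1 (by
        rw [hq]; have : 0 ≤ 5 / ε := by positivity
        linarith)
  have hK0lo : Bb ^ 2 ≤ K0 := Nat.le_ceil _
  have hK0hi : (K0 : ℝ) ≤ 2 * Bb ^ 2 := by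
    have := Nat.ceil_lt_add_one (a := Bb ^ 2) (by positivity)
    linarith
  have hTlo : Bb ^ q ≤ T := Nat.le_ceil _
  have hThi : (T : ℝ) ≤ 2 * Bb ^ q := by
    have := Nat.ceil_lt_add_one (a := Bb ^ q) (by positivity)
    linarith
  have hT1r : (1 : ℝ) ≤ T := by linarith
  have hT1 : 1 ≤ T := by exact_mod_cast hT1r
  have hNT : N ≤ T := by
    have : (N : ℝ) ≤ T := by linarith
    exact_mod_cast this
  have hK01r : (1 : ℝ) ≤ K0 := by linarith
  have hK01 : 1 ≤ K0 := by exact_mod_cast hK01r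
  obtain ⟨m, hmdef⟩ : ∃ m, m = Nat.log 2 (K0 * T) + 1 := ⟨_, rfl⟩
  have hm1 : K0 * T < 2 ^ m := by rw [hmdef]; exact Nat.lt_pow_succ_log_self (by norm_num) _
  -- the bound for wide bridges
  have hAh : ev x (Ah T) ≤ ENNReal.ofReal ((Bb ^ 5)⁻¹) := by
    refine (ev_Ah_le x T).trans ((H T hNT).trans (ENNReal.ofReal_le_ofReal ?_))
    calc (T : ℝ) ^ (-ε) ≤ (Bb ^ q) ^ (-ε) :=
          Real.rpow_le_rpow_of_nonpos (by positivity) hTlo (by linarith)
      _ = Bb ^ (-(ε + 5)) := by
          rw [← Real.rpow_mul hBb0.le]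
          congr 1
          rw [hq]
          field_simp
      _ ≤ Bb ^ (-(5 : ℝ)) := Real.rpow_le_rpow_of_exponent_le hBb1 (by linarith)
      _ = _ := by
          rw [Real.rpow_neg hBb0.le]
          norm_cast
  have hTw : ev x (Tw (2 ^ m)) ≤ ENNReal.ofReal 2 := by
    have h1 := ev_mono (x := x) (Tw_le hm1)
    rw [ev_add, ev_cst_mul, ev_mul, ev_mul, ev_pow, hAa] at h1
    refine h1.trans ?_
    have e1 : (K0 : ℝ≥0∞) * (ev x (Ah T) * ev x Bs) ≤ ENNReal.ofReal 1 := by
      calc (K0 : ℝ≥0∞) * (ev x (Ah T) * ev x Bs)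
          ≤ ENNReal.ofReal K0 * (ENNReal.ofReal ((Bb ^ 5)⁻¹) * ENNReal.ofReal Bb) := by
            rw [ENNReal.ofReal_natCast]
            gcongr
        _ = ENNReal.ofReal (K0 * ((Bb ^ 5)⁻¹ * Bb)) := by
            rw [ENNReal.ofReal_mul (p := (K0 : ℝ)) (by positivity),
              ENNReal.ofReal_mul (p := (Bb ^ 5)⁻¹) (by positivity)]
        _ ≤ _ := by
            apply ENNReal.ofReal_le_ofReal
            calc (K0 : ℝ) * ((Bb ^ 5)⁻¹ * Bb) ≤ (2 * Bb ^ 2) * ((Bb ^ 5)⁻¹ * Bb) := by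
                  gcongr
              _ = 2 / Bb ^ 2 := by field_simp
              _ ≤ 1 := by
                  rw [div_le_one (by positivity)]
                  nlinarith
    have e4 : ENNReal.ofReal a ^ (K0 + 1) * ev x Bs ≤ ENNReal.ofReal 1 := by
      calc ENNReal.ofReal a ^ (K0 + 1) * ev x Bs
          ≤ ENNReal.ofReal a ^ (K0 + 1) * ENNReal.ofReal Bb := by gcongr
        _ = ENNReal.ofReal (a ^ (K0 + 1) * Bb) := by
            rw [ENNReal.ofReal_mul (by positivity), ENNReal.ofReal_pow ha0]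
        _ ≤ _ := by
            apply ENNReal.ofReal_le_ofReal
            calc a ^ (K0 + 1) * Bb ≤ a ^ K0 * Bb := by
                  gcongr ?_ * _
                  exact pow_le_pow_of_le_one ha0 ha1.le (by omega)
              _ ≤ (Real.exp (-(1 / Bb))) ^ K0 * Bb := by gcongr
              _ = Real.exp (-((K0 : ℝ) / Bb)) * Bb := by
                  rw [← Real.exp_nat_mul]
                  congr 2; ring
              _ ≤ Real.exp (-Bb) * Bb := by
                  gcongr ?_ * _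
                  apply Real.exp_le_exp.mpr
                  have : Bb ≤ (K0 : ℝ) / Bb := by
                    rw [le_div_iff₀ hBb0]; nlinarith
                  linarith
              _ ≤ Real.exp (-Bb) * Real.exp Bb := by
                  gcongr
                  have := Real.add_one_le_exp Bb
                  linarith
              _ = 1 := by rw [← Real.exp_add]; simp
    calc _ ≤ ENNReal.ofReal 1 + ENNReal.ofReal 1 := add_le_add e1 e4
      _ = ENNReal.ofReal 2 := by
        rw [← ENNReal.ofReal_add (by norm_num) (by norm_num)]; norm_num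
  have hmain := main_ineq hξ hhi m (w := 2) (by norm_num) hTw
  -- the bound for m
  have hm2 : (m : ℝ) ≤ C2 * Real.log N := by
    have hKT : K0 * T ≠ 0 := by positivity
    have h1 : ((Nat.log 2 (K0 * T) : ℕ) : ℝ) * Real.log 2 ≤ Real.log ((K0 * T : ℕ) : ℝ) := by
      rw [← Real.log_pow]
      apply Real.log_le_log (by positivity)
      exact_mod_cast Nat.pow_log_le_self 2 hKT
    have h2 : Real.log ((K0 * T : ℕ) : ℝ) ≤ 2 + (3 + 5 / ε) * lb := by
      have h3 : ((K0 * T : ℕ) : ℝ) ≤ Real.exp (2 + (3 + 5 / ε) * lb) := by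
        push_cast
        calc (K0 : ℝ) * T ≤ (2 * Bb ^ 2) * (2 * Bb ^ q) := by gcongr
          _ = 4 * (Bb ^ (2 : ℝ) * Bb ^ q) := by norm_cast; ring
          _ = 4 * Bb ^ (2 + q) := by rw [← Real.rpow_add hBb0]
          _ = 4 * Real.exp ((3 + 5 / ε) * lb) := by
              rw [hBb, ← Real.exp_mul]
              congr 2
              rw [hq]; ring
          _ ≤ Real.exp 2 * Real.exp ((3 + 5 / ε) * lb) := by
              gcongr
              have h3 : (2.7:ℝ) ≤ Real.exp 1 := by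
                have := Real.exp_one_gt_d9; linarith
              calc (4:ℝ) ≤ 2.7 ^ 2 := by norm_num
                _ ≤ (Real.exp 1) ^ 2 := by gcongr
                _ = Real.exp 2 := by rw [← Real.exp_nat_mul]; norm_num
          _ = _ := by rw [← Real.exp_add]
      calc Real.log ((K0 * T : ℕ) : ℝ) ≤ Real.log (Real.exp (2 + (3 + 5 / ε) * lb)) :=
            Real.log_le_log (by positivity) h3
        _ = _ := Real.log_exp _
    have h4 : ((Nat.log 2 (K0 * T) : ℕ) : ℝ) ≤ 2 * (2 + (3 + 5 / ε) * lb) := by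
      have h5 : (0 : ℝ) ≤ ((Nat.log 2 (K0 * T) : ℕ) : ℝ) := by positivity
      nlinarith
    have h6 : (m : ℝ) ≤ (10 + 10 / ε) * lb := by
      rw [hmdef]; push_cast
      have : (10 + 10 / ε) * lb = 4 * lb + 2 * ((3 + 5 / ε) * lb) := by ring
      rw [this]
      linarith
    have h8 : lb ≤ 5 * Real.log N := by
      rw [hlb]
      linarith
    calc (m : ℝ) ≤ (10 + 10 / ε) * lb := h6
      _ ≤ (10 + 10 / ε) * (5 * Real.log N) := by gcongr
      _ = _ := by rw [hC2]; ring
  -- conclusion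
  have h1 : (1 + Real.exp (2 + 600000000 * (m : ℝ) ^ 2)) ^ 2 ≤
      4 * Real.exp (4 + 1200000000 * (C2 * Real.log N) ^ 2) := by
    have e1 : (1 : ℝ) ≤ Real.exp (2 + 600000000 * (m : ℝ) ^ 2) := Real.one_le_exp (by positivity)
    calc (1 + Real.exp (2 + 600000000 * (m : ℝ) ^ 2)) ^ 2
        ≤ (2 * Real.exp (2 + 600000000 * (m : ℝ) ^ 2)) ^ 2 := by gcongr; linarith
      _ = 4 * Real.exp (4 + 1200000000 * (m : ℝ) ^ 2) := by
          rw [mul_pow, ← Real.exp_nat_mul]
          norm_num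
          ring
      _ ≤ _ := by gcongr
  have h2 : 1 / (1 - mu * ξ) ≤ 8 * mu * Real.exp (4 + 1200000000 * (C2 * Real.log N) ^ 2) := by
    have hP : 0 < 1 / (1 - mu * ξ) := by
      have : 0 < 1 - mu * ξ := by linarith
      positivity
    have h3 : 1 / 2 * (1 / (1 - mu * ξ)) ≤ mu * (4 * Real.exp (4 + 1200000000 *
        (C2 * Real.log N) ^ 2)) := by
      calc 1 / 2 * (1 / (1 - mu * ξ)) ≤ mu * ξ * (1 / (1 - mu * ξ)) := by gcongr
        _ = mu * (ξ * (1 / (1 - mu * ξ))) := by ring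
        _ ≤ _ := mul_le_mul_of_nonneg_left (hmain.trans h1) hmu0.le
    linarith
  refine h2.trans ?_
  have h4 : 8 * mu = Real.exp (Real.log (8 * mu)) := (Real.exp_log (by positivity)).symm
  conv_lhs => rw [h4]
  rw [← Real.exp_add]
  apply Real.exp_le_exp.mpr
  have h5 : (1 : ℝ) ≤ 4 * Real.log N ^ 2 := by nlinarith
  have h6 : Real.log (8 * mu) + 4 ≤ (Real.log (8 * mu) + 4) * (4 * Real.log N ^ 2) := by
    nlinarith
  calc Real.log (8 * mu) + (4 + 1200000000 * (C2 * Real.log N) ^ 2)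
      = (Real.log (8 * mu) + 4) + 1200000000 * C2 ^ 2 * Real.log N ^ 2 := by ring
    _ ≤ (Real.log (8 * mu) + 4) * (4 * Real.log N ^ 2) +
        1200000000 * C2 ^ 2 * Real.log N ^ 2 := by linarith
    _ = _ := by ring

end Pool.Agent.H131.T1
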