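import Pool.Agent.H131.T1.Win2

/-!
The window theorem in the form of tails.
-/

set_option linter.unusedSectionVars false

namespace Pool.Agent.H131.T1

open H982 hiding PU
open scoped ENNReal
open PowerSeries Filter

variable [L : H982.Lat]

lemma exp_sqrt_small (s : ℝ) : ∃ M : ℕ, ∀ n : ℕ, M ≤ n →
    Real.exp (-Real.sqrt n) ≤ (n : ℝ) ^ (-s) := by
  have h := isLittleO_exp_neg_mul_rpow_atTop (a := 1) one_pos (-(2 * s))
  have h2 := h.bound (c := 1) one_pos
  rw [eventually_atTop] at h2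
  obtain ⟨y, hy⟩ := h2
  refine ⟨⌈(max y 1) ^ 2⌉₊ + 1, ?_⟩
  intro n hn
  have h3 : (max y 1) ^ 2 ≤ (n : ℝ) := by
    have h4 : ((⌈(max y 1) ^ 2⌉₊ : ℕ) : ℝ) ≤ n := by exact_mod_cast (by omega : _ ≤ n)
    exact (Nat.le_ceil _).trans h4
  have h5 : max y 1 ≤ Real.sqrt n := Real.le_sqrt_of_sq_le h3
  have h6 := hy (Real.sqrt n) ((le_max_left _ _).trans h5)
  have h7 : (1 : ℝ) ≤ Real.sqrt n := (le_max_right _ _).trans h5
  have hn0 : (0 : ℝ) < n := by
    have : (1 : ℝ) ≤ (max y 1) ^ 2 := one_le_pow₀ (le_max_right _ _)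
    linarith
  rw [one_mul, Real.norm_of_nonneg (by positivity), Real.norm_of_nonneg (by positivity)] at h6
  have e1 : Real.sqrt n ^ (-(2 * s)) = (n : ℝ) ^ (-s) := by
    rw [Real.sqrt_eq_rpow, ← Real.rpow_mul hn0.le]
    congr 1; ring
  rw [e1] at h6
  simpa using h6

/-- the sum of `n ^ (-2)` -/
noncomputable def Z2 : ℝ := ∑' n : ℕ, (n : ℝ) ^ (-2 : ℝ)

lemma Z2_summable : Summable (fun n : ℕ => (n : ℝ) ^ (-2 : ℝ)) :=
  Real.summable_nat_rpow.mpr (by norm_num)

lemma Z2_nonneg : 0 ≤ Z2 := tsum_nonneg fun n => by positivity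

lemma ofReal_Z2 : ENNReal.ofReal Z2 = ∑' n : ℕ, ENNReal.ofReal ((n : ℝ) ^ (-2 : ℝ)) :=
  ENNReal.ofReal_tsum_of_nonneg (fun n => by positivity) Z2_summable

/-- **window theorem** -/
theorem window {ε : ℝ} (hε : 0 < ε) : ∃ K : ℝ, 0 ≤ K ∧ ∀ N : ℕ, 2 ≤ N → ∃ T M : ℕ, N ≤ T ∧
    (M : ℝ) ≤ Real.exp (K * Real.log N ^ 2) ∧
    ENNReal.ofReal ((T : ℝ) ^ (-ε) / 2) ≤
      ∑ n ∈ Finset.Ioc T M, coeff n Ch * ENNReal.ofReal ((mu ^ n)⁻¹) := by
  obtain ⟨C, hC, hP⟩ := point_bound (L := L) hε
  obtain ⟨M1, hM1⟩ := exp_sqrt_small (3 + ε)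
  have hmu := one_le_mu
  have hmu0 := mu_pos
  have hZ := Z2_nonneg
  have hM1r : (0 : ℝ) ≤ M1 := by positivity
  obtain ⟨D, hD⟩ : ∃ D : ℝ, D = M1 + 3 + 2 * Z2 := ⟨_, rfl⟩
  have hD3 : 3 ≤ D := by rw [hD]; linarith
  have hlD : 0 ≤ Real.log D := Real.log_nonneg (by linarith)
  refine ⟨2 * (C + 4 * Real.log (D + 1)), ?_, ?_⟩
  · have : 0 ≤ Real.log (D + 1) := Real.log_nonneg (by linarith)
    positivity
  intro N hN
  have hNr : (2 : ℝ) ≤ N := by exact_mod_cast hN
  have hl2 := log_two_ge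
  have hlN : Real.log 2 ≤ Real.log N := Real.log_le_log (by norm_num) hNr
  obtain ⟨M0, hM0⟩ : ∃ M0 : ℝ, M0 = Real.exp (C * Real.log N ^ 2) + D := ⟨_, rfl⟩
  have hE1 : 1 ≤ Real.exp (C * Real.log N ^ 2) := Real.one_le_exp (by positivity)
  have hM02 : 2 ≤ M0 := by linarith
  have hM00 : 0 < M0 := by linarith
  have hM0D : D ≤ M0 := by linarith
  obtain ⟨ξ, hξdef⟩ : ∃ ξ : ℝ, ξ = (1 - 1 / M0) / mu := ⟨_, rfl⟩
  have hinv : 1 / M0 ≤ 1 / 2 := one_div_le_one_div_of_le (by norm_num) hM02
  have hinv0 : 0 < 1 / M0 := by positivity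
  have hmx : mu * ξ = 1 - 1 / M0 := by rw [hξdef]; field_simp
  have hξ : 0 < ξ := by
    rw [hξdef]
    have : 0 < 1 - 1 / M0 := by linarith
    positivity
  have hlt : Real.exp (C * Real.log N ^ 2) < 1 / (1 - mu * ξ) := by
    have : 1 / (1 - mu * ξ) = M0 := by rw [hmx]; field_simp; ring
    rw [this]; linarith
  have hnot : ¬ (∀ T, N ≤ T → tau (ENNReal.ofReal ξ) T ≤ ENNReal.ofReal ((T : ℝ) ^ (-ε))) := by
    intro H
    have := hP N hN ξ hξ (by rw [hmx]; linarith) (by rw [hmx]; linarith) H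
    linarith
  push Not at hnot
  obtain ⟨T, hT, hbig⟩ := hnot
  obtain ⟨M, hMdef⟩ : ∃ M : ℕ, M = ⌊M0 ^ 2⌋₊ := ⟨_, rfl⟩
  have hMle : (M : ℝ) ≤ M0 ^ 2 := by rw [hMdef]; exact Nat.floor_le (by positivity)
  have hMlt : ∀ n : ℕ, M < n → M0 ^ 2 ≤ (n : ℝ) := by
    intro n hn
    have h1 : M0 ^ 2 < (M : ℝ) + 1 := by rw [hMdef]; exact Nat.lt_floor_add_one _
    have h2 : ((M : ℝ) + 1) ≤ n := by exact_mod_cast hn
    linarith
  have hT0 : (0 : ℝ) < T := by
    have : 0 < T := by omega
    exact_mod_cast this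
  refine ⟨T, M, hT, ?_, ?_⟩
  · refine hMle.trans ?_
    have h1 : M0 ≤ Real.exp (C * Real.log N ^ 2) * (D + 1) := by
      rw [hM0]; nlinarith
    have h2 : D + 1 = Real.exp (Real.log (D + 1)) := (Real.exp_log (by linarith)).symm
    have h3 : 0 ≤ Real.log (D + 1) := Real.log_nonneg (by linarith)
    calc M0 ^ 2 ≤ (Real.exp (C * Real.log N ^ 2) * (D + 1)) ^ 2 := by gcongr
      _ = (Real.exp (C * Real.log N ^ 2) * Real.exp (Real.log (D + 1))) ^ 2 := by rw [← h2]
      _ = Real.exp (2 * (C * Real.log N ^ 2 + Real.log (D + 1))) := by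
          rw [← Real.exp_add, ← Real.exp_nat_mul]
          norm_num
      _ ≤ _ := by
          apply Real.exp_le_exp.mpr
          have h5 : (1 : ℝ) ≤ 4 * Real.log N ^ 2 := by nlinarith
          have h6 : Real.log (D + 1) ≤ Real.log (D + 1) * (4 * Real.log N ^ 2) := by
            nlinarith
          nlinarith
  · -- the part beyond `M` is small
    have hpt : ∀ n, (if T < n then coeff n Ch * ENNReal.ofReal ξ ^ n else 0) ≤
        (if n ∈ Finset.Ioc T M then coeff n Ch * ENNReal.ofReal ((mu ^ n)⁻¹) else 0) +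
        ENNReal.ofReal ((T : ℝ) ^ (-ε) / D) * ENNReal.ofReal ((n : ℝ) ^ (-2 : ℝ)) := by
      intro n
      by_cases hTn : T < n
      · rw [if_pos hTn]
        by_cases hnM : n ≤ M
        · rw [if_pos (Finset.mem_Ioc.mpr ⟨hTn, hnM⟩)]
          refine le_trans ?_ le_self_add
          gcongr
          rw [← ENNReal.ofReal_pow hξ.le]
          apply ENNReal.ofReal_le_ofReal
          rw [← one_div, le_div_iff₀ (by positivity), ← mul_pow, mul_comm, hmx]
          exact pow_le_one₀ (by linarith) (by linarith)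
        · rw [if_neg (by rw [Finset.mem_Ioc]; omega), zero_add]
          push Not at hnM
          have hn2 := hMlt n hnM
          have hn0 : (0 : ℝ) < n := by
            have : 0 < M0 ^ 2 := by positivity
            linarith
          have hMn : M0 ≤ n := by nlinarith
          have hnM1 : M1 ≤ n := by
            have : (M1 : ℝ) ≤ n := by linarith
            exact_mod_cast this
          calc coeff n Ch * ENNReal.ofReal ξ ^ n
              ≤ ENNReal.ofReal (mu ^ n) * ENNReal.ofReal ξ ^ n := by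
                gcongr
                exact (Ch_le_Bs n).trans (bn_le_mu n)
            _ = ENNReal.ofReal ((1 - 1 / M0) ^ n) := by
                rw [← ENNReal.ofReal_pow hξ.le, ← ENNReal.ofReal_mul (by positivity), ← mul_pow, hmx]
            _ ≤ ENNReal.ofReal ((T : ℝ) ^ (-ε) / D * (n : ℝ) ^ (-2 : ℝ)) := by
                apply ENNReal.ofReal_le_ofReal
                have h2 : 1 - 1 / M0 ≤ Real.exp (-(1 / M0)) := by
                  have := Real.add_one_le_exp (-(1 / M0))
                  linarith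
                calc (1 - 1 / M0) ^ n ≤ (Real.exp (-(1 / M0))) ^ n :=
                      pow_le_pow_left₀ (by linarith) h2 n
                  _ = Real.exp (-((n : ℝ) / M0)) := by
                      rw [← Real.exp_nat_mul]; congr 1; ring
                  _ ≤ Real.exp (-Real.sqrt n) := by
                      apply Real.exp_le_exp.mpr
                      have h3 : M0 ≤ Real.sqrt n := Real.le_sqrt_of_sq_le hn2
                      have h4 : Real.sqrt n * Real.sqrt n = n := Real.mul_self_sqrt hn0.le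
                      have h5 : Real.sqrt n ≤ (n : ℝ) / M0 := by
                        rw [le_div_iff₀ hM00]
                        nlinarith [Real.sqrt_nonneg n]
                      linarith
                  _ ≤ (n : ℝ) ^ (-(3 + ε)) := hM1 n hnM1
                  _ = (n : ℝ) ^ (-ε) * (n : ℝ) ^ (-1 : ℝ) * (n : ℝ) ^ (-2 : ℝ) := by
                      rw [← Real.rpow_add hn0, ← Real.rpow_add hn0]
                      congr 1; ring
                  _ ≤ (T : ℝ) ^ (-ε) * D⁻¹ * (n : ℝ) ^ (-2 : ℝ) := by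
                      gcongr ?_ * ?_ * _
                      · apply Real.rpow_le_rpow_of_nonpos hT0 _ (by linarith)
                        exact_mod_cast hTn.le
                      · rw [Real.rpow_neg_one]
                        apply inv_anti₀ (by linarith)
                        linarith
            _ = _ := by
                rw [ENNReal.ofReal_mul (by positivity)]
      · rw [if_neg hTn]
        exact zero_le
    have hsum : tau (ENNReal.ofReal ξ) T ≤
        ∑ n ∈ Finset.Ioc T M, coeff n Ch * ENNReal.ofReal ((mu ^ n)⁻¹) +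
        ENNReal.ofReal ((T : ℝ) ^ (-ε) / 2) := by
      unfold tau
      refine (ENNReal.tsum_le_tsum hpt).trans ?_
      rw [ENNReal.tsum_add]
      refine add_le_add ?_ ?_
      · rw [tsum_eq_sum (s := Finset.Ioc T M)]
        · apply le_of_eq
          apply Finset.sum_congr rfl
          intro n hn
          rw [if_pos hn]
        · intro n hn
          rw [if_neg hn]
      · rw [ENNReal.tsum_mul_left, ← ofReal_Z2, ← ENNReal.ofReal_mul (by positivity)]
        apply ENNReal.ofReal_le_ofReal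
        have hTe : 0 ≤ (T : ℝ) ^ (-ε) := by positivity
        have h6 : Z2 / D ≤ 1 / 2 := by
          rw [div_le_iff₀ (by linarith)]
          rw [hD]; linarith
        calc (T : ℝ) ^ (-ε) / D * Z2 = (T : ℝ) ^ (-ε) * (Z2 / D) := by ring
          _ ≤ (T : ℝ) ^ (-ε) * (1 / 2) := by gcongr
          _ = _ := by ring
    have h7 : ENNReal.ofReal ((T : ℝ) ^ (-ε)) =
        ENNReal.ofReal ((T : ℝ) ^ (-ε) / 2) + ENNReal.ofReal ((T : ℝ) ^ (-ε) / 2) := by
      rw [← ENNReal.ofReal_add (by positivity) (by positivity)]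
      congr 1; ring
    have h8 := hbig.le.trans hsum
    rw [h7] at h8
    exact (ENNReal.add_le_add_iff_right ENNReal.ofReal_ne_top).mp h8

end Pool.Agent.H131.T1
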